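import Pool.Agent.L5helper98.EA.Det

/-!
# The number of the bonds of the forest in a box
-/

set_option autoImplicit false

open MeasureTheory Filter

namespace Pool.Agent.L5helper98.EA

variable {d : ℕ}

lemma cut_nonempty (hd : 1 ≤ d) {A : Finset (Fin d → ℤ)} (hA : A.Nonempty) : (cut A).Nonempty := by
  set i : Fin d := ⟨0, by omega⟩
  obtain ⟨v, hv, hmax⟩ := A.exists_max_image (fun v => v i) hA
  refine ⟨(v, i), Or.inl ⟨hv, fun h => ?_⟩⟩
  have := hmax _ h
  simp [tg] at this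

/-- the strongest bond of a cut -/
lemma cut_max (hd : 1 ≤ d) {a : (Fin d → ℤ) × Fin d → ℝ} (ha : Function.Injective a)
    {A : Finset (Fin d → ℤ)} (hA : A.Nonempty) : ∃ e ∈ cut A, e ∈ Frs a := by
  obtain ⟨e, he, hmax⟩ := (cut_finite A).exists_maximalFor a _ (cut_nonempty hd hA)
  refine ⟨e, he, A, he, fun f hf hfe => ?_⟩
  refine lt_of_le_of_ne ?_ (fun h => hfe (ha h))
  by_contra hc
  push Not at hc
  exact absurd (hmax hf hc.le) (not_le.2 hc)

theorem count_forest (hd : 1 ≤ d) {a : (Fin d → ℤ) × Fin d → ℝ} (ha : Function.Injective a)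
    (n : ℕ) :
    (2 * n + 1) ^ d ≤ {e : (Fin d → ℤ) × Fin d | e ∈ Frs a ∧
      (e.1 ∈ Bx d n ∨ tg e ∈ Bx d n)}.ncard := by
  classical
  set S : Set ((Fin d → ℤ) × Fin d) := {e | e ∈ Frs a ∧ (e.1 ∈ Bx d n ∨ tg e ∈ Bx d n)} with hS
  have hSfin : S.Finite := by
    refine (BB d (n + 1)).finite_toSet.subset fun e he => ?_
    rw [Finset.mem_coe, mem_BB]
    intro i
    have h1 := tg_abs e i
    rcases he.2 with h | h
    · have := mem_Bx.1 h i
      push_cast
      omega
    · have := mem_Bx.1 h i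
      push_cast
      rw [abs_le] at this h1 ⊢
      omega
  set φ : (Fin d → ℤ) → Option {v // v ∈ Bx d n} := fun v =>
    if h : v ∈ Bx d n then some ⟨v, h⟩ else none with hφ
  have hφ1 : ∀ (v : Fin d → ℤ) (h : v ∈ Bx d n), φ v = some ⟨v, h⟩ := fun v h => by
    simp only [hφ, h, dif_pos]
  have hφ0 : ∀ (v : Fin d → ℤ), v ∉ Bx d n → φ v = none := fun v h => by
    simp only [hφ, h, not_false_iff, dif_neg]
  have hne : ∀ e : (Fin d → ℤ) × Fin d, e.1 ≠ tg e := by
    intro e h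
    have := congrFun h e.2
    simp [tg] at this
  have hφne : ∀ u v : Fin d → ℤ, u ≠ v → u ∈ Bx d n → φ u ≠ φ v := by
    intro u v huv hu h
    rw [hφ1 u hu] at h
    by_cases hv : v ∈ Bx d n
    · rw [hφ1 v hv] at h
      exact huv (by simpa using h)
    · rw [hφ0 v hv] at h
      cases h
  set H : SimpleGraph (Option {v // v ∈ Bx d n}) :=
    SimpleGraph.fromRel (fun x y => ∃ e ∈ Frs a, φ e.1 = x ∧ φ (tg e) = y) with hH
  have hreach : ∀ x, H.Reachable x none := by
    intro x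
    rcases x with _ | ⟨v, hv⟩
    · exact SimpleGraph.Reachable.refl _
    by_contra hcon
    set A := (Bx d n).filter fun w => H.Reachable (some ⟨v, hv⟩) (φ w) with hA
    have hvA : v ∈ A := by
      rw [hA, Finset.mem_filter]
      exact ⟨hv, by rw [hφ1 v hv]⟩
    obtain ⟨e, he, heF⟩ := cut_max hd ha (A := A) ⟨v, hvA⟩
    have key : ∀ u w : Fin d → ℤ, u ∈ A → w ∉ A → (H.Adj (φ u) (φ w)) → False := by
      intro u w hu hw hadj
      rw [hA, Finset.mem_filter] at hu
      have h1 : H.Reachable (some ⟨v, hv⟩) (φ w) := hu.2.trans hadj.reachable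
      by_cases hwB : w ∈ Bx d n
      · exact hw (by rw [hA, Finset.mem_filter]; exact ⟨hwB, h1⟩)
      · rw [hφ0 w hwB] at h1
        exact hcon h1
    rcases he with ⟨h1, h2⟩ | ⟨h1, h2⟩
    · refine key _ _ h1 h2 ?_
      rw [hH, SimpleGraph.fromRel_adj]
      exact ⟨hφne _ _ (hne e) (Finset.mem_filter.1 h1).1, Or.inl ⟨e, heF, rfl, rfl⟩⟩
    · refine key _ _ h2 h1 ?_
      rw [hH, SimpleGraph.fromRel_adj]
      exact ⟨hφne _ _ (hne e).symm (Finset.mem_filter.1 h2).1, Or.inr ⟨e, heF, rfl, rfl⟩⟩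
  have hconn : H.Connected := by
    rw [SimpleGraph.connected_iff]
    exact ⟨fun x y => (hreach x).trans (hreach y).symm, ⟨none⟩⟩
  have h1 := hconn.card_vert_le_card_edgeSet_add_one
  have h2 : Nat.card (Option {v // v ∈ Bx d n}) = (2 * n + 1) ^ d + 1 := by
    rw [Nat.card_eq_fintype_card, Fintype.card_option, Fintype.card_coe, card_Bx]
  have h3 : H.edgeSet ⊆ (fun e => s(φ e.1, φ (tg e))) '' S := by
    intro z hz
    induction z using Sym2.ind with
    | _ x y =>
      rw [SimpleGraph.mem_edgeSet, hH, SimpleGraph.fromRel_adj] at hz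
      obtain ⟨hxy, h⟩ := hz
      have key : ∀ e ∈ Frs a, φ e.1 ≠ φ (tg e) → e ∈ S := by
        intro e he h
        refine ⟨he, ?_⟩
        by_contra hc
        push Not at hc
        exact h (by rw [hφ0 _ hc.1, hφ0 _ hc.2])
      rcases h with ⟨e, he, rfl, rfl⟩ | ⟨e, he, rfl, rfl⟩
      · exact ⟨e, key e he hxy, rfl⟩
      · exact ⟨e, key e he hxy.symm, Sym2.eq_swap⟩
  have h4 : Nat.card H.edgeSet ≤ S.ncard := by
    rw [Nat.card_coe_set_eq]
    exact (Set.ncard_le_ncard h3 (hSfin.image _)).trans (Set.ncard_image_le hSfin)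
  omega

theorem count_forest' (hd : 1 ≤ d) {a : (Fin d → ℤ) × Fin d → ℝ} (ha : Function.Injective a)
    (n : ℕ) :
    (2 * n + 1) ^ d ≤ {e : (Fin d → ℤ) × Fin d | e ∈ Frs a ∧ e.1 ∈ Bx d (n + 1)}.ncard := by
  refine (count_forest hd ha n).trans (Set.ncard_le_ncard ?_ ?_)
  · rintro e ⟨h1, h2⟩
    refine ⟨h1, mem_Bx.2 fun i => ?_⟩
    have h3 := tg_abs e i
    rcases h2 with h | h
    · have := mem_Bx.1 h i
      push_cast
      omega
    · have := mem_Bx.1 h i
      push_cast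
      rw [abs_le] at this h3 ⊢
      omega
  · refine (BB d (n + 1)).finite_toSet.subset fun e he => ?_
    rw [Finset.mem_coe, mem_BB]
    exact mem_Bx.1 he.2

end Pool.Agent.L5helper98.EA
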