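import Mathlib

/-!
# Edwards-Anderson ground states and the minimal spanning forest: deterministic part
-/

set_option autoImplicit false

open MeasureTheory Filter

namespace Pool.Agent.L5helper98.EA

variable {d : ℕ}

/-- the upper end of a bond -/
def tg (e : (Fin d → ℤ) × Fin d) : Fin d → ℤ := e.1 + (Pi.single e.2 (1 : ℤ) : Fin d → ℤ)

/-- boxes -/
noncomputable def Bx (d n : ℕ) : Finset (Fin d → ℤ) := Fintype.piFinset fun _ => Finset.Icc (-(n : ℤ)) n

/-- the bonds with lower end in the box -/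
noncomputable def BB (d n : ℕ) : Finset ((Fin d → ℤ) × Fin d) := Bx d n ×ˢ Finset.univ

lemma mem_Bx {n : ℕ} {v : Fin d → ℤ} : v ∈ Bx d n ↔ ∀ i, |v i| ≤ n := by
  unfold Bx
  simp only [Fintype.mem_piFinset, Finset.mem_Icc, abs_le]

lemma mem_BB {n : ℕ} {e : (Fin d → ℤ) × Fin d} : e ∈ BB d n ↔ ∀ i, |e.1 i| ≤ n := by
  unfold BB
  rw [Finset.mem_product, mem_Bx]
  simp

lemma Bx_mono {m n : ℕ} (h : m ≤ n) : Bx d m ⊆ Bx d n := by
  intro v hv
  rw [mem_Bx] at hv ⊢
  intro i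
  have := hv i
  have h2 : (m : ℤ) ≤ n := by exact_mod_cast h
  omega

lemma card_Bx (n : ℕ) : (Bx d n).card = (2 * n + 1) ^ d := by
  unfold Bx
  rw [Fintype.card_piFinset]
  simp only [Int.card_Icc, Finset.prod_const, Finset.card_univ, Fintype.card_fin]
  congr 1
  omega

/-- the bonds between a finite set and its complement -/
def cut (A : Finset (Fin d → ℤ)) : Set ((Fin d → ℤ) × Fin d) :=
  {e | (e.1 ∈ A ∧ tg e ∉ A) ∨ (e.1 ∉ A ∧ tg e ∈ A)}

lemma tg_abs (e : (Fin d → ℤ) × Fin d) (i : Fin d) : |tg e i - e.1 i| ≤ 1 := by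
  unfold tg
  rcases eq_or_ne i e.2 with h | h
  · subst h
    simp
  · simp [Pi.single_eq_of_ne h]

lemma cut_sub {M : ℕ} {A : Finset (Fin d → ℤ)} (hA : A ⊆ Bx d M) :
    cut A ⊆ (↑(BB d (M + 1)) : Set ((Fin d → ℤ) × Fin d)) := by
  intro e he
  rw [Finset.mem_coe, mem_BB]
  intro i
  have h1 := tg_abs e i
  rcases he with ⟨h, -⟩ | ⟨-, h⟩
  · have := mem_Bx.1 (hA h) i
    push_cast
    omega
  · have := mem_Bx.1 (hA h) i
    push_cast
    rw [abs_le] at this h1 ⊢
    omega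

lemma exists_Bx (A : Finset (Fin d → ℤ)) : ∃ M : ℕ, A ⊆ Bx d M := by
  classical
  refine ⟨∑ v ∈ A, ∑ i, (v i).natAbs, fun v hv => ?_⟩
  rw [mem_Bx]
  intro i
  have h1 : (v i).natAbs ≤ ∑ i, (v i).natAbs :=
    Finset.single_le_sum (f := fun i => (v i).natAbs) (fun _ _ => Nat.zero_le _) (Finset.mem_univ i)
  have h2 : ∑ i, (v i).natAbs ≤ ∑ v ∈ A, ∑ i, (v i).natAbs :=
    Finset.single_le_sum (f := fun v : Fin d → ℤ => ∑ i, (v i).natAbs) (fun _ _ => Nat.zero_le _) hv
  rw [Int.abs_eq_natAbs]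
  exact_mod_cast h1.trans h2

lemma cut_finite (A : Finset (Fin d → ℤ)) : (cut A).Finite := by
  obtain ⟨M, hM⟩ := exists_Bx A
  exact (BB d (M + 1)).finite_toSet.subset (cut_sub hM)

/-- the strongest bonds of the boundaries of the finite sets in a box -/
def Top (a : (Fin d → ℤ) × Fin d → ℝ) (M : ℕ) : Set ((Fin d → ℤ) × Fin d) :=
  {e | ∃ A : Finset (Fin d → ℤ), A ⊆ Bx d M ∧ e ∈ cut A ∧ ∀ f ∈ cut A, f ≠ e → a f < a e}

/-- the forest: the strongest bonds of the boundaries of the finite sets -/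
def Frs (a : (Fin d → ℤ) × Fin d → ℝ) : Set ((Fin d → ℤ) × Fin d) :=
  {e | ∃ A : Finset (Fin d → ℤ), e ∈ cut A ∧ ∀ f ∈ cut A, f ≠ e → a f < a e}

def Adj (T : Set ((Fin d → ℤ) × Fin d)) (u v : Fin d → ℤ) : Prop :=
  ∃ e ∈ T, (e.1 = u ∧ tg e = v) ∨ (e.1 = v ∧ tg e = u)

/-- `u` and `v` are joined by a path of bonds of `T` -/
def Reach (T : Set ((Fin d → ℤ) × Fin d)) : (Fin d → ℤ) → (Fin d → ℤ) → Prop :=
  Relation.ReflTransGen (Adj T)

lemma Adj.mono {T T' : Set ((Fin d → ℤ) × Fin d)} (h : T ⊆ T') {u v : Fin d → ℤ}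
    (hu : Adj T u v) : Adj T' u v := by
  obtain ⟨e, he, h1⟩ := hu
  exact ⟨e, h he, h1⟩

lemma Reach.mono {T T' : Set ((Fin d → ℤ) × Fin d)} (h : T ⊆ T') {u v : Fin d → ℤ}
    (hu : Reach T u v) : Reach T' u v :=
  Relation.ReflTransGen.mono (fun _ _ => Adj.mono h) _ _ hu

lemma Adj.symm {T : Set ((Fin d → ℤ) × Fin d)} {u v : Fin d → ℤ} (h : Adj T u v) : Adj T v u := by
  obtain ⟨e, he, h1⟩ := h
  exact ⟨e, he, h1.symm⟩

lemma Top_mono (a : (Fin d → ℤ) × Fin d → ℝ) {M N : ℕ} (h : M ≤ N) : Top a M ⊆ Top a N := by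
  rintro e ⟨A, hA, h1⟩
  exact ⟨A, hA.trans (Bx_mono h), h1⟩

lemma Top_sub (a : (Fin d → ℤ) × Fin d → ℝ) (M : ℕ) : Top a M ⊆ Frs a := by
  rintro e ⟨A, -, h1⟩
  exact ⟨A, h1⟩

lemma Frs_iff (a : (Fin d → ℤ) × Fin d → ℝ) (e : (Fin d → ℤ) × Fin d) :
    e ∈ Frs a ↔ ∃ M, e ∈ Top a M := by
  constructor
  · rintro ⟨A, h1⟩
    obtain ⟨M, hM⟩ := exists_Bx A
    exact ⟨M, A, hM, h1⟩
  · rintro ⟨M, h⟩
    exact Top_sub a M h

lemma Top_subBB (a : (Fin d → ℤ) × Fin d → ℝ) (M : ℕ) :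
    Top a M ⊆ (↑(BB d (M + 1)) : Set ((Fin d → ℤ) × Fin d)) := by
  rintro e ⟨A, hA, he, -⟩
  exact cut_sub hA he

/-- a path uses finitely many bonds -/
lemma Reach.finite {T : Set ((Fin d → ℤ) × Fin d)} {u v : Fin d → ℤ} (h : Reach T u v) :
    ∃ S : Finset ((Fin d → ℤ) × Fin d), (S : Set _) ⊆ T ∧ Reach (S : Set _) u v := by
  classical
  unfold Reach at h
  induction h with
  | refl => exact ⟨∅, by simp, Relation.ReflTransGen.refl⟩
  | tail _ h2 ih =>
    obtain ⟨S, hS, hR⟩ := ih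
    obtain ⟨e, he, h3⟩ := h2
    refine ⟨insert e S, ?_, ?_⟩
    · rw [Finset.coe_insert]
      exact Set.insert_subset he hS
    · refine Relation.ReflTransGen.tail (Reach.mono (by simp) hR) ⟨e, by simp, h3⟩

lemma Reach_Frs (a : (Fin d → ℤ) × Fin d → ℝ) (u v : Fin d → ℤ) :
    Reach (Frs a) u v ↔ ∃ M, Reach (Top a M) u v := by
  classical
  constructor
  · intro h
    obtain ⟨S, hS, hR⟩ := h.finite
    have key : ∀ S : Finset ((Fin d → ℤ) × Fin d), (S : Set _) ⊆ Frs a →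
        ∃ M, (S : Set _) ⊆ Top a M := by
      intro S
      induction S using Finset.induction_on with
      | empty => exact fun _ => ⟨0, by simp⟩
      | insert e S _ ih =>
        intro h1
        rw [Finset.coe_insert, Set.insert_subset_iff] at h1
        obtain ⟨M, hM⟩ := ih h1.2
        obtain ⟨N, hN⟩ := (Frs_iff a e).1 h1.1
        refine ⟨max M N, ?_⟩
        rw [Finset.coe_insert]
        exact Set.insert_subset (Top_mono a (le_max_right _ _) hN)
          (hM.trans (Top_mono a (le_max_left _ _)))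
    obtain ⟨M, hM⟩ := key S hS
    exact ⟨M, hR.mono hM⟩
  · rintro ⟨M, h⟩
    exact h.mono (Top_sub a M)

/-- separation of the couplings in a box -/
def Sep (J : (Fin d → ℤ) × Fin d → ℝ) (K : ℝ) (M : ℕ) : Prop :=
  ∀ e ∈ BB d (M + 1), ∀ f ∈ BB d (M + 1), e ≠ f → K * |J e| < |J f| ∨ K * |J f| < |J e|

/-- the condition on a ground state in the box of radius `n`: every finite set in the box has
positive boundary energy -/
def GSC (n : ℕ) (J : (Fin d → ℤ) × Fin d → ℝ) (σ : (Fin d → ℤ) → ℝ) : Prop :=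
  (∀ v, σ v = 1 ∨ σ v = -1) ∧
  ∀ A : Finset (Fin d → ℤ), A ⊆ Bx d n → A.Nonempty →
    0 < ∑ᶠ e ∈ cut A, J e * (σ e.1 * σ (tg e))

/-- A strongest edge of a finite cut is satisfied in a ground state. -/
theorem sat_edge {J : (Fin d → ℤ) × Fin d → ℝ} {K : ℝ} {M : ℕ} (hK : ((BB d (M + 1)).card : ℝ) ≤ K)
    (hS : Sep J K M) {σ : (Fin d → ℤ) → ℝ} (hσ : GSC M J σ) {e : (Fin d → ℤ) × Fin d}
    (he : e ∈ Top (fun e => |J e|) M) :
    J e * (σ e.1 * σ (tg e)) = |J e| ∧ 0 < |J e| := by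
  classical
  obtain ⟨A, hA, heA, hmax⟩ := he
  have hne : A.Nonempty := by
    rcases heA with h | h
    · exact ⟨_, h.1⟩
    · exact ⟨_, h.2⟩
  have hfin : (cut A).Finite := cut_finite A
  have hpos := hσ.2 A hA hne
  set w : (Fin d → ℤ) × Fin d → ℝ := fun f => J f * (σ f.1 * σ (tg f)) with hw
  have hspin : ∀ v w' : Fin d → ℤ, σ v * σ w' = 1 ∨ σ v * σ w' = -1 := by
    intro v w'
    rcases hσ.1 v with h | h <;> rcases hσ.1 w' with h' | h' <;> rw [h, h'] <;> norm_num
  have hwabs : ∀ f, |w f| = |J f| := by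
    intro f
    rw [hw]
    simp only
    rcases hspin f.1 (tg f) with h | h <;> rw [h] <;> simp
  rw [finsum_mem_eq_finite_toFinset_sum _ hfin] at hpos
  set S := hfin.toFinset with hSdef
  have heS : e ∈ S := by rw [hSdef, Set.Finite.mem_toFinset]; exact heA
  have hSbox : S ⊆ BB d (M + 1) := by
    intro f hf
    rw [hSdef, Set.Finite.mem_toFinset] at hf
    exact cut_sub hA hf
  have hebox := hSbox heS
  rw [← Finset.add_sum_erase S w heS] at hpos
  have hcard1 : 1 ≤ (BB d (M + 1)).card := Finset.card_pos.2 ⟨e, hebox⟩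
  have hK1 : (1 : ℝ) ≤ K := le_trans (by exact_mod_cast hcard1) hK
  have hlt : ∀ f ∈ S.erase e, K * |J f| < |J e| := by
    intro f hf
    rw [Finset.mem_erase] at hf
    have h1 : |J f| < |J e| := by
      have := hf.2
      rw [hSdef, Set.Finite.mem_toFinset] at this
      exact hmax f this hf.1
    rcases hS f (hSbox hf.2) e hebox hf.1 with h | h
    · exact h
    · exfalso
      have : |J e| ≤ K * |J e| := by nlinarith [abs_nonneg (J e)]
      linarith
  have hsum : |∑ f ∈ S.erase e, w f| ≤ ∑ f ∈ S.erase e, |J f| := by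
    refine (Finset.abs_sum_le_sum_abs _ _).trans (le_of_eq ?_)
    exact Finset.sum_congr rfl fun f _ => hwabs f
  have hepos : 0 < |J e| := by
    rcases (abs_nonneg (J e)).lt_or_eq with h | h
    · exact h
    · exfalso
      have hemp : S.erase e = ∅ := by
        rw [Finset.eq_empty_iff_forall_notMem]
        intro f hf
        have h1 := hlt f hf
        have h2 : 0 ≤ K * |J f| := by positivity
        linarith
      rw [hemp, Finset.sum_empty, add_zero] at hpos
      have h1 := hwabs e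
      rw [← h] at h1
      have h2 : w e = 0 := abs_eq_zero.1 h1
      linarith
  have hsmall : ∑ f ∈ S.erase e, |J f| < |J e| := by
    have h1 : K * ∑ f ∈ S.erase e, |J f| ≤ ((S.erase e).card : ℝ) * |J e| := by
      rw [Finset.mul_sum, ← nsmul_eq_mul, ← Finset.sum_const]
      exact Finset.sum_le_sum fun f hf => (hlt f hf).le
    have h2 : ((S.erase e).card : ℝ) + 1 ≤ K := by
      have h3 : (S.erase e).card + 1 = S.card := Finset.card_erase_add_one heS
      have h4 : S.card ≤ (BB d (M + 1)).card := Finset.card_le_card hSbox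
      have h5 : ((S.erase e).card : ℝ) + 1 ≤ ((BB d (M + 1)).card : ℝ) := by
        exact_mod_cast h3.trans_le h4
      linarith
    by_contra hcon
    rw [not_lt] at hcon
    nlinarith
  refine ⟨?_, hepos⟩
  have h6 := (abs_le.1 (le_refl |∑ f ∈ S.erase e, w f|)).2
  rcases hspin e.1 (tg e) with h | h
  · have h7 : w e = J e := by rw [hw]; simp only; rw [h, mul_one]
    have h8 : 0 < J e := by
      by_contra hcon
      rw [not_lt] at hcon
      rw [abs_of_nonpos hcon] at hsmall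
      rw [h7] at hpos
      linarith
    show w e = |J e|
    rw [h7, abs_of_pos h8]
  · have h7 : w e = - J e := by rw [hw]; simp only; rw [h]; ring
    have h8 : J e < 0 := by
      by_contra hcon
      rw [not_lt] at hcon
      rw [abs_of_nonneg hcon] at hsmall
      rw [h7] at hpos
      linarith
    show w e = |J e|
    rw [h7, abs_of_neg h8]

theorem sat_reach {J : (Fin d → ℤ) × Fin d → ℝ} {K : ℝ} {M : ℕ}
    (hK : ((BB d (M + 1)).card : ℝ) ≤ K)
    (hS : Sep J K M) {σ τ : (Fin d → ℤ) → ℝ} (hσ : GSC M J σ) (hτ : GSC M J τ) {u v : Fin d → ℤ}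
    (hr : Reach (Top (fun e => |J e|) M) u v) : σ u * σ v = τ u * τ v := by
  have hsq : ∀ ρ : (Fin d → ℤ) → ℝ, GSC M J ρ → ∀ v, ρ v * ρ v = 1 := by
    intro ρ hρ v
    rcases hρ.1 v with h | h <;> rw [h] <;> norm_num
  have hedge : ∀ e ∈ Top (fun e => |J e|) M,
      σ e.1 * σ (tg e) = τ e.1 * τ (tg e) := by
    intro e he
    obtain ⟨h1, h2⟩ := sat_edge hK hS hσ he
    obtain ⟨h3, -⟩ := sat_edge hK hS hτ he
    have hJ : J e ≠ 0 := abs_pos.1 h2
    exact mul_left_cancel₀ hJ (h1.trans h3.symm)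
  have hstep : ∀ x y, Adj (Top (fun e => |J e|) M) x y → σ x * σ y = τ x * τ y := by
    rintro x y ⟨e, he, h | h⟩
    · rw [← h.1, ← h.2]; exact hedge e he
    · rw [← h.1, ← h.2, mul_comm (σ _), mul_comm (τ _)]; exact hedge e he
  unfold Reach at hr
  induction hr with
  | refl => rw [hsq σ hσ, hsq τ hτ]
  | @tail b c _ hbc ih =>
    have h1 := hstep b c hbc
    calc σ u * σ c = (σ u * σ b) * (σ b * σ c) := by
          have := hsq σ hσ b
          linear_combination (- σ u * σ c) * this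
      _ = (τ u * τ b) * (τ b * τ c) := by rw [ih, h1]
      _ = τ u * τ c := by
          have := hsq τ hτ b
          linear_combination (τ u * τ c) * this

end Pool.Agent.L5helper98.EA
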