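import Pool.Agent.L5helper98.EA.Shf

/-!
# Assembly
-/

set_option autoImplicit false

namespace Pool.Agent.L5helper98.EA

open MeasureTheory Filter Topology

variable {d : ℕ}

lemma cn_iUnion (n : ℕ) (D : Fin d → Set (Fin d → ℤ)) : cn n (⋃ i, D i) ≤ ∑ i, cn n (D i) := by
  classical
  unfold cn
  refine le_trans (Finset.card_le_card fun v hv => ?_) Finset.card_biUnion_le
  simp only [Finset.mem_filter, Finset.mem_biUnion, Set.mem_iUnion, Finset.mem_univ,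
    true_and] at hv ⊢
  obtain ⟨h1, i, h2⟩ := hv
  exact ⟨i, h1, h2⟩

lemma pow_ratio (d : ℕ) (c : ℝ) {ε : ℝ} (hε : 0 < ε) : ∀ᶠ n : ℕ in atTop,
    (1 - ε) * (2 * (n : ℝ) + 1) ^ d ≤ (2 * (n : ℝ) + 1 - c) ^ d := by
  have h1 : Tendsto (fun n : ℕ => ((2 * (n : ℝ) + 1 - c) / (2 * (n : ℝ) + 1)) ^ d) atTop
      (𝓝 (1 ^ d)) := by
    refine Tendsto.pow ?_ d
    have h1 : Tendsto (fun n : ℕ => 1 - c / (2 * (n : ℝ) + 1)) atTop (𝓝 (1 - 0)) := by
      refine Tendsto.const_sub _ (Tendsto.div_atTop tendsto_const_nhds ?_)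
      exact tendsto_atTop_add_const_right _ _
        (Tendsto.const_mul_atTop (by norm_num) tendsto_natCast_atTop_atTop)
    rw [sub_zero] at h1
    refine h1.congr fun L => ?_
    have : (2 * (L : ℝ) + 1) ≠ 0 := by positivity
    field_simp
  rw [one_pow] at h1
  filter_upwards [h1.eventually (lt_mem_nhds (show 1 - ε < 1 by linarith))] with n hn
  have h2 : (0 : ℝ) < (2 * (n : ℝ) + 1) ^ d := by positivity
  rw [div_pow, lt_div_iff₀ h2] at hn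
  exact hn.le

theorem near (hd : 2 ≤ d) (ε : ℝ) (hε : 0 < ε) : ∃ K δ : ℝ, 0 < K ∧ 0 < δ ∧
    ∀ (μ : Measure ℝ) [IsProbabilityMeasure μ], (∀ x, μ {x} = 0) →
    (μ.prod μ).real {p : ℝ × ℝ | |p.1| ≤ K * |p.2| ∧ |p.2| ≤ K * |p.1|} ≤ δ →
    ∀ᵐ J ∂(PJ d μ), ∀ᶠ n : ℕ in atTop,
      ({e : (Fin d → ℤ) × Fin d | e.1 ∈ Bx d n ∧ Reach (Frs (ab J)) e.1 (tg e) ∧
        ∃ σ τ, GSC n J σ ∧ GSC n J τ ∧ σ e.1 * σ (tg e) ≠ τ e.1 * τ (tg e)}.ncard : ℝ) ≤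
          ε * (2 * (n : ℝ) + 1) ^ d ∧
      ({e : (Fin d → ℤ) × Fin d | e.1 ∈ Bx d n ∧ e ∈ Frs (ab J) ∧
        ∃ σ, GSC n J σ ∧ J e * (σ e.1 * σ (tg e)) ≤ 0}.ncard : ℝ) ≤ ε * (2 * (n : ℝ) + 1) ^ d ∧
      (1 - ε) * (2 * (n : ℝ) + 1) ^ d ≤ ({e : (Fin d → ℤ) × Fin d | e.1 ∈ Bx d n ∧
        e ∈ Frs (ab J) ∧ ∀ σ, GSC n J σ → 0 < J e * (σ e.1 * σ (tg e))}.ncard : ℝ) := by
  classical
  have hd0 : (0 : ℝ) < d := by exact_mod_cast (by omega : 0 < d)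
  have hd1 : (1 : ℝ) ≤ d := by exact_mod_cast (by omega : 1 ≤ d)
  set β : ℝ := ε / (24 * (d : ℝ) ^ 2) with hβ
  have hβ0 : 0 < β := by positivity
  -- the scale
  have hR : ∀ i : Fin d, ∃ M₀ : ℕ, ∀ M, M₀ ≤ M → ∀ (μ : Measure ℝ) [IsProbabilityMeasure μ],
      (∀ x, μ {x} = 0) → (PJ d μ).real ((⋃ N, ab ⁻¹' EvR i N) \ (ab ⁻¹' EvR i M)) ≤ β :=
    fun i => uniform_small (EvR i) (EvR_meas i) (EvR_mono i) (EvR_ord i) hβ0
  have hT : ∀ i : Fin d, ∃ M₀ : ℕ, ∀ M, M₀ ≤ M → ∀ (μ : Measure ℝ) [IsProbabilityMeasure μ],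
      (∀ x, μ {x} = 0) → (PJ d μ).real ((⋃ N, ab ⁻¹' EvT i N) \ (ab ⁻¹' EvT i M)) ≤ β :=
    fun i => uniform_small (EvT i) (EvT_meas i) (EvT_mono i) (EvT_ord i) hβ0
  choose MR hMR using hR
  choose MT hMT using hT
  set M : ℕ := (∑ i, MR i) + ∑ i, MT i with hM
  have hMR' : ∀ i, MR i ≤ M := fun i => (Finset.single_le_sum (f := MR) (fun _ _ => Nat.zero_le _)
    (Finset.mem_univ i)).trans (Nat.le_add_right _ _)
  have hMT' : ∀ i, MT i ≤ M := fun i => (Finset.single_le_sum (f := MT) (fun _ _ => Nat.zero_le _)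
    (Finset.mem_univ i)).trans (Nat.le_add_left _ _)
  set K : ℝ := ((BB d (M + 1)).card : ℝ) + 1 with hKdef
  have hK1 : 1 ≤ K := by
    have : (0 : ℝ) ≤ ((BB d (M + 1)).card : ℝ) := Nat.cast_nonneg _
    linarith
  have hcard : ((BB d (M + 1)).card : ℝ) ≤ K := by linarith
  refine ⟨K, β / K ^ 2, by linarith, by positivity, ?_⟩
  intro μ _ hat hδ
  have hS : (PJ d μ).real {J : (Fin d → ℤ) × Fin d → ℝ | ¬ Sep J K M} ≤ β := by
    refine (sep_prob μ K _ hδ M).trans ?_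
    have h5 : ((BB d (M + 1)).card : ℝ) ^ 2 ≤ K ^ 2 := by gcongr
    calc ((BB d (M + 1)).card : ℝ) ^ 2 * (β / K ^ 2) ≤ K ^ 2 * (β / K ^ 2) :=
          mul_le_mul_of_nonneg_right h5 (by positivity)
      _ = β := by field_simp
  -- the averages
  have aR : ∀ᵐ J ∂(PJ d μ), ∀ i : Fin d, ∀ᶠ n : ℕ in atTop,
      (cn n {v | sh v J ∈ (⋃ N, ab ⁻¹' EvR i N) \ (ab ⁻¹' EvR i M)} : ℝ) ≤
        (β + β) * (2 * (n : ℝ) + 1) ^ d := by
    rw [ae_all_iff]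
    intro i
    filter_upwards [avg (μ := μ) hd (A := fun N => ab ⁻¹' EvR i N)
      (fun N => ab_meas (EvR_meas i N)) (fun N => ⟨N + 1, EvR_local i N⟩)
      (fun N N' h => Set.preimage_mono (EvR_mono i h)) M hβ0] with J hJ
    filter_upwards [hJ] with n hn
    refine hn.trans ?_
    have := hMR i M (hMR' i) μ hat
    gcongr
  have aT : ∀ᵐ J ∂(PJ d μ), ∀ i : Fin d, ∀ᶠ n : ℕ in atTop,
      (cn n {v | sh v J ∈ (⋃ N, ab ⁻¹' EvT i N) \ (ab ⁻¹' EvT i M)} : ℝ) ≤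
        (β + β) * (2 * (n : ℝ) + 1) ^ d := by
    rw [ae_all_iff]
    intro i
    filter_upwards [avg (μ := μ) hd (A := fun N => ab ⁻¹' EvT i N)
      (fun N => ab_meas (EvT_meas i N)) (fun N => ⟨N + 1, EvT_local i N⟩)
      (fun N N' h => Set.preimage_mono (EvT_mono i h)) M hβ0] with J hJ
    filter_upwards [hJ] with n hn
    refine hn.trans ?_
    have := hMT i M (hMT' i) μ hat
    gcongr
  have aS : ∀ᵐ J ∂(PJ d μ), ∀ᶠ n : ℕ in atTop,
      (cn n {v | sh v J ∈ {J : (Fin d → ℤ) × Fin d → ℝ | ¬ Sep J K M}} : ℝ) ≤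
        (β + β) * (2 * (n : ℝ) + 1) ^ d := by
    filter_upwards [lln (μ := μ) hd (M := M + 1) (B := {J : (Fin d → ℤ) × Fin d → ℝ | ¬ Sep J K M})
      (sep_meas K M).compl (Sep_local K M) hβ0] with J hJ
    filter_upwards [hJ] with n hn
    refine hn.trans ?_
    gcongr
  filter_upwards [aR, aT, aS, order_ae (d := d) hat] with J jR jT jS jO
  have hratio := pow_ratio d 2 (show 0 < ε / 2 by positivity)
  have hratio2 := pow_ratio d (2 * M) (show 0 < ε / (4 * d) by positivity)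
  filter_upwards [eventually_all.2 jR, eventually_all.2 jT, jS, hratio, hratio2,
    eventually_ge_atTop (M + 1)] with n nR nT nS nr nr2 n1
  -- the number of the bad sites
  set X₁ : Set (Fin d → ℤ) := {v | sh v J ∈ Bad K M} with hX₁
  set X₂ : Set (Fin d → ℤ) := {v | ¬ ∀ i, |v i| + M ≤ n} with hX₂
  set X : Set (Fin d → ℤ) := X₁ ∪ X₂ with hX
  have hpos : (0 : ℝ) ≤ (2 * (n : ℝ) + 1) ^ d := by positivity
  have hbad2 : (cn n X₂ : ℝ) ≤ ε / (4 * d) * (2 * (n : ℝ) + 1) ^ d := by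
    have e0 : cn n X₂ =
        ((Bx d n).filter fun v : Fin d → ℤ => ¬ ∀ i, |v i| + (M : ℤ) ≤ (n : ℤ)).card := by
      unfold cn
      congr 1
      ext v
      simp [hX₂]
    have h1 : cn n X₂ + (Bx d (n - M)).card ≤ (Bx d n).card := by
      rw [e0, ← Finset.card_union_of_disjoint]
      · refine Finset.card_le_card (Finset.union_subset (Finset.filter_subset _ _)
          (Bx_mono (Nat.sub_le _ _)))
      · rw [Finset.disjoint_left]
        intro v hv hv2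
        simp only [Finset.mem_filter] at hv
        refine hv.2 fun i => ?_
        have := mem_Bx.1 hv2 i
        omega
    rw [card_Bx, card_Bx] at h1
    have h2 : (cn n X₂ : ℝ) + (2 * ((n - M : ℕ) : ℝ) + 1) ^ d ≤ (2 * (n : ℝ) + 1) ^ d := by
      exact_mod_cast h1
    have h3 : ((n - M : ℕ) : ℝ) = n - M := by
      rw [Nat.cast_sub (by omega)]
    have h4 : 2 * ((n - M : ℕ) : ℝ) + 1 = 2 * (n : ℝ) + 1 - 2 * M := by
      rw [h3]
      ring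
    rw [h4] at h2
    linarith
  have hbad1 : (cn n X₁ : ℝ) ≤ ε / (4 * d) * (2 * (n : ℝ) + 1) ^ d := by
    have h1 : X₁ ⊆ (⋃ i : Fin d, ({v | sh v J ∈ (⋃ N, ab ⁻¹' EvR i N) \ (ab ⁻¹' EvR i M)} ∪
        {v | sh v J ∈ (⋃ N, ab ⁻¹' EvT i N) \ (ab ⁻¹' EvT i M)})) ∪
        {v | sh v J ∈ {J : (Fin d → ℤ) × Fin d → ℝ | ¬ Sep J K M}} := by
      rintro v (hv | hv)
      · left
        obtain ⟨i, hi⟩ := Set.mem_iUnion.1 hv
        exact Set.mem_iUnion.2 ⟨i, hi⟩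
      · right
        exact hv
    have h2 : cn n X₁ ≤ (∑ i : Fin d,
        (cn n {v | sh v J ∈ (⋃ N, ab ⁻¹' EvR i N) \ (ab ⁻¹' EvR i M)} +
        cn n {v | sh v J ∈ (⋃ N, ab ⁻¹' EvT i N) \ (ab ⁻¹' EvT i M)})) +
        cn n {v | sh v J ∈ {J : (Fin d → ℤ) × Fin d → ℝ | ¬ Sep J K M}} := by
      refine (cn_mono n h1).trans ((cn_union n _ _).trans ?_)
      refine Nat.add_le_add_right ((cn_iUnion n _).trans ?_) _
      exact Finset.sum_le_sum fun i _ => cn_union n _ _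
    have h3 : (cn n X₁ : ℝ) ≤ (∑ i : Fin d,
        ((cn n {v | sh v J ∈ (⋃ N, ab ⁻¹' EvR i N) \ (ab ⁻¹' EvR i M)} : ℝ) +
        cn n {v | sh v J ∈ (⋃ N, ab ⁻¹' EvT i N) \ (ab ⁻¹' EvT i M)})) +
        cn n {v | sh v J ∈ {J : (Fin d → ℤ) × Fin d → ℝ | ¬ Sep J K M}} := by exact_mod_cast h2
    have h4 : (∑ i : Fin d,
        ((cn n {v | sh v J ∈ (⋃ N, ab ⁻¹' EvR i N) \ (ab ⁻¹' EvR i M)} : ℝ) +
        cn n {v | sh v J ∈ (⋃ N, ab ⁻¹' EvT i N) \ (ab ⁻¹' EvT i M)})) ≤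
        ∑ _i : Fin d, 4 * β * (2 * (n : ℝ) + 1) ^ d := by
      refine Finset.sum_le_sum fun i _ => ?_
      have := nR i
      have := nT i
      linarith
    rw [Finset.sum_const, Finset.card_univ, Fintype.card_fin, nsmul_eq_mul] at h4
    have h5 : (4 * (d : ℝ) + 2) * β ≤ ε / (4 * d) := by
      have h6 : (4 * (d : ℝ) + 2) * β ≤ 6 * d * β := by
        refine mul_le_mul_of_nonneg_right ?_ hβ0.le
        linarith
      have h7 : 6 * (d : ℝ) * β = ε / (4 * d) := by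
        rw [hβ]
        field_simp
        norm_num
      linarith
    have nS' : (cn n {v | sh v J ∈ {J : (Fin d → ℤ) × Fin d → ℝ | ¬ Sep J K M}} : ℝ) ≤
        (β + β) * (2 * (n : ℝ) + 1) ^ d := nS
    calc (cn n X₁ : ℝ) ≤ (d : ℝ) * (4 * β * (2 * (n : ℝ) + 1) ^ d) +
          (β + β) * (2 * (n : ℝ) + 1) ^ d := by linarith
      _ = (4 * (d : ℝ) + 2) * β * (2 * (n : ℝ) + 1) ^ d := by ring
      _ ≤ _ := mul_le_mul_of_nonneg_right h5 hpos
  have hbad : (cn n X : ℝ) ≤ ε / (2 * d) * (2 * (n : ℝ) + 1) ^ d := by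
    have h1 : (cn n X : ℝ) ≤ cn n X₁ + cn n X₂ := by exact_mod_cast cn_union n X₁ X₂
    have h2 : ε / (2 * d) = ε / (4 * d) + ε / (4 * d) := by
      field_simp
      norm_num
    rw [h2, add_mul]
    linarith
  -- a set of bonds with bad lower ends is small
  have hset : ∀ S : Set ((Fin d → ℤ) × Fin d), (∀ e ∈ S, e.1 ∈ Bx d n ∧ e.1 ∈ X) →
      (S.ncard : ℝ) ≤ ε / 2 * (2 * (n : ℝ) + 1) ^ d := by
    intro S hS
    have h1 : S ⊆ (↑(((Bx d n).filter fun v => v ∈ X) ×ˢ (Finset.univ : Finset (Fin d))) :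
        Set ((Fin d → ℤ) × Fin d)) := by
      intro e he
      rw [Finset.mem_coe, Finset.mem_product, Finset.mem_filter]
      exact ⟨hS e he, Finset.mem_univ _⟩
    have h2 : S.ncard ≤ cn n X * d := by
      refine (Set.ncard_le_ncard h1 (Finset.finite_toSet _)).trans ?_
      rw [Set.ncard_coe_finset, Finset.card_product, Finset.card_univ, Fintype.card_fin]
      refine Nat.mul_le_mul_right d (le_of_eq ?_)
      unfold cn
      congr 1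
      ext v
      simp
    have h3 : (S.ncard : ℝ) ≤ cn n X * d := by exact_mod_cast h2
    refine h3.trans ?_
    calc (cn n X : ℝ) * d ≤ ε / (2 * d) * (2 * (n : ℝ) + 1) ^ d * d :=
          mul_le_mul_of_nonneg_right hbad hd0.le
      _ = ε / 2 * (2 * (n : ℝ) + 1) ^ d := by
          field_simp
  have hhalf : ε / 2 * (2 * (n : ℝ) + 1) ^ d ≤ ε * (2 * (n : ℝ) + 1) ^ d :=
    mul_le_mul_of_nonneg_right (by linarith) hpos
  have hD2 : ({e : (Fin d → ℤ) × Fin d | e.1 ∈ Bx d n ∧ e ∈ Frs (ab J) ∧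
        ∃ σ, GSC n J σ ∧ J e * (σ e.1 * σ (tg e)) ≤ 0}.ncard : ℝ) ≤
      ε / 2 * (2 * (n : ℝ) + 1) ^ d := by
    refine hset _ ?_
    rintro e ⟨h1, h2, σ, h3, h4⟩
    refine ⟨h1, ?_⟩
    by_contra hc
    rw [hX, Set.mem_union, not_or] at hc
    obtain ⟨c1, c2⟩ := hc
    exact absurd (good_top hcard c1 h2 (by simpa [hX₂] using c2) h3) (not_lt.2 h4)
  refine ⟨(hset _ ?_).trans hhalf, hD2.trans hhalf, ?_⟩
  · rintro e ⟨h1, h2, σ, τ, h3, h4, h5⟩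
    refine ⟨h1, ?_⟩
    by_contra hc
    rw [hX, Set.mem_union, not_or] at hc
    obtain ⟨c1, c2⟩ := hc
    exact h5 (good_reach hcard c1 h2 (by simpa [hX₂] using c2) h3 h4)
  · -- the lower bound
    obtain ⟨m, rfl⟩ : ∃ m, n = m + 1 := ⟨n - 1, by omega⟩
    have h1 := count_forest' (by omega : 1 ≤ d) (a := ab J) jO.1 m
    have hfin : {e : (Fin d → ℤ) × Fin d | e.1 ∈ Bx d (m + 1)}.Finite := by
      refine (BB d (m + 1)).finite_toSet.subset fun e he => ?_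
      rw [Finset.mem_coe, mem_BB]
      exact mem_Bx.1 he
    have h2 : {e : (Fin d → ℤ) × Fin d | e ∈ Frs (ab J) ∧ e.1 ∈ Bx d (m + 1)} ⊆
        {e : (Fin d → ℤ) × Fin d | e.1 ∈ Bx d (m + 1) ∧
          e ∈ Frs (ab J) ∧ ∀ σ, GSC (m + 1) J σ → 0 < J e * (σ e.1 * σ (tg e))} ∪
        {e : (Fin d → ℤ) × Fin d | e.1 ∈ Bx d (m + 1) ∧ e ∈ Frs (ab J) ∧
          ∃ σ, GSC (m + 1) J σ ∧ J e * (σ e.1 * σ (tg e)) ≤ 0} := by
      rintro e ⟨g1, g2⟩
      by_cases h : ∀ σ, GSC (m + 1) J σ → 0 < J e * (σ e.1 * σ (tg e))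
      · exact Or.inl ⟨g2, g1, h⟩
      · push Not at h
        exact Or.inr ⟨g2, g1, h⟩
    have h3 := (Set.ncard_le_ncard h2 ((hfin.subset fun e he => he.1).union
      (hfin.subset fun e he => he.1))).trans (Set.ncard_union_le _ _)
    have h4 : ((2 * (m : ℝ) + 1) ^ d) ≤
        ({e : (Fin d → ℤ) × Fin d | e.1 ∈ Bx d (m + 1) ∧
          e ∈ Frs (ab J) ∧ ∀ σ, GSC (m + 1) J σ → 0 < J e * (σ e.1 * σ (tg e))}.ncard : ℝ) +
        ({e : (Fin d → ℤ) × Fin d | e.1 ∈ Bx d (m + 1) ∧ e ∈ Frs (ab J) ∧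
          ∃ σ, GSC (m + 1) J σ ∧ J e * (σ e.1 * σ (tg e)) ≤ 0}.ncard : ℝ) := by
      exact_mod_cast h1.trans h3
    have h5 : (2 * ((m + 1 : ℕ) : ℝ) + 1 - 2) = 2 * (m : ℝ) + 1 := by
      push_cast
      ring
    rw [h5] at nr
    linarith

end Pool.Agent.L5helper98.EA
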