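import Pool.Agent.L5helper98.EA.Max

/-!
# The law of the order of the strengths of the couplings does not depend on the law of the couplings
-/

set_option autoImplicit false

open MeasureTheory Filter Topology ProbabilityTheory

namespace Pool.Agent.L5helper98.EA

variable {d : ℕ}

/-- the uniform law -/
noncomputable def U1 : Measure ℝ := volume.restrict (Set.Ioc (0 : ℝ) 1)

instance : IsProbabilityMeasure U1 := ⟨by simp [U1]⟩

lemma U1_atom (x : ℝ) : U1 {x} = 0 := by
  have h : U1 {x} ≤ volume {x} := Measure.restrict_apply_le _ _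
  exact le_antisymm (h.trans (by simp)) bot_le

/-- the distribution function of the absolute value -/
noncomputable def Tm (μ : Measure ℝ) (x : ℝ) : ℝ := cdf (μ.map fun y => |y|) |x|

lemma Tm_mono (μ : Measure ℝ) {x y : ℝ} (h : |x| ≤ |y|) : Tm μ x ≤ Tm μ y :=
  monotone_cdf _ h

lemma Tm_meas (μ : Measure ℝ) : Measurable (Tm μ) :=
  (monotone_cdf _).measurable.comp measurable_norm

section

variable {μ : Measure ℝ}

lemma abs_atom (hat : ∀ x, μ {x} = 0) (r : ℝ) : (μ.map fun y => |y|) {r} = 0 := by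
  have hm : Measurable fun y : ℝ => |y| := measurable_norm
  rw [Measure.map_apply hm (measurableSet_singleton r)]
  refine measure_mono_null (t := {r} ∪ {-r}) ?_ (measure_union_null (hat r) (hat (-r)))
  intro y hy
  have hy' : |y| = r := hy
  rcases abs_choice y with h | h
  · left
    rw [Set.mem_singleton_iff, ← hy', h]
  · right
    rw [Set.mem_singleton_iff, ← hy', h, neg_neg]

lemma cdf_cont {m : Measure ℝ} [IsProbabilityMeasure m] (hat : ∀ x, m {x} = 0) :
    Continuous (cdf m) := by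
  rw [continuous_iff_continuousAt]
  intro x
  rw [(monotone_cdf m).continuousAt_iff_leftLim_eq_rightLim]
  have h1 := (cdf m).measure_singleton x
  rw [measure_cdf, hat x] at h1
  have h2 : (cdf m) x - Function.leftLim (cdf m) x ≤ 0 := by
    rw [← ENNReal.ofReal_eq_zero]
    exact h1.symm
  have h3 : Function.leftLim (cdf m) x ≤ cdf m x := (monotone_cdf m).leftLim_le le_rfl
  have h4 : Function.rightLim (cdf m) x = cdf m x := (cdf m).rightLim_eq x
  rw [h4]
  linarith

lemma cdf_law {m : Measure ℝ} [IsProbabilityMeasure m] (hat : ∀ x, m {x} = 0) :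
    m.map (cdf m) = U1 := by
  have hmeas : Measurable (cdf m) := (monotone_cdf m).measurable
  have : IsProbabilityMeasure (m.map (cdf m)) := Measure.isProbabilityMeasure_map hmeas.aemeasurable
  refine Measure.ext_of_Iic _ _ fun s => ?_
  rw [Measure.map_apply hmeas measurableSet_Iic]
  unfold U1
  rw [Measure.restrict_apply measurableSet_Iic]
  rcases lt_or_ge s 0 with hs | hs
  · have e1 : cdf m ⁻¹' Set.Iic s = ∅ := by
      ext x
      simp only [Set.mem_preimage, Set.mem_Iic, Set.mem_empty_iff_false, iff_false, not_le]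
      exact lt_of_lt_of_le hs (cdf_nonneg m x)
    have e2 : Set.Iic s ∩ Set.Ioc (0 : ℝ) 1 = ∅ := by
      ext x
      simp only [Set.mem_inter_iff, Set.mem_Iic, Set.mem_Ioc, Set.mem_empty_iff_false, iff_false]
      rintro ⟨h1, h2, -⟩
      linarith
    rw [e1, e2, measure_empty, measure_empty]
  rcases le_or_gt 1 s with hs1 | hs1
  · have e1 : cdf m ⁻¹' Set.Iic s = Set.univ := by
      ext x
      simp only [Set.mem_preimage, Set.mem_Iic, Set.mem_univ, iff_true]
      exact (cdf_le_one m x).trans hs1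
    have e2 : Set.Iic s ∩ Set.Ioc (0 : ℝ) 1 = Set.Ioc 0 1 := by
      ext x
      simp only [Set.mem_inter_iff, Set.mem_Iic, Set.mem_Ioc, and_iff_right_iff_imp]
      rintro ⟨-, h2⟩
      linarith
    rw [e1, e2, measure_univ]
    simp
  -- the main case
  have hbdd : BddAbove {r | cdf m r ≤ s} := by
    have h1 := (tendsto_cdf_atTop m).eventually (lt_mem_nhds hs1)
    obtain ⟨b, hb⟩ := h1.exists
    refine ⟨b, fun r hr => ?_⟩
    by_contra hc
    push Not at hc
    have := monotone_cdf m hc.le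
    have hr' : cdf m r ≤ s := hr
    linarith
  have e2 : Set.Iic s ∩ Set.Ioc (0 : ℝ) 1 = Set.Ioc 0 s := by
    ext x
    simp only [Set.mem_inter_iff, Set.mem_Iic, Set.mem_Ioc]
    constructor
    · rintro ⟨h1, h2, -⟩
      exact ⟨h2, h1⟩
    · rintro ⟨h1, h2⟩
      exact ⟨h2, h1, by linarith⟩
  by_cases hemp : {r | cdf m r ≤ s} = ∅
  · rcases hs.eq_or_lt with h0 | h0
    · have e1 : cdf m ⁻¹' Set.Iic s = ∅ := hemp
      rw [e1, e2, ← h0]
      simp
    · exfalso
      have h1 := (tendsto_cdf_atBot m).eventually (gt_mem_nhds h0)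
      obtain ⟨b, hb⟩ := h1.exists
      have : b ∈ {r | cdf m r ≤ s} := hb.le
      rw [hemp] at this
      exact this
  have key : ∃ c, cdf m c = s ∧ ∀ r, cdf m r ≤ s → r ≤ c := by
    rcases hs.eq_or_lt with h0 | h0
    · have hne : {r | cdf m r ≤ s}.Nonempty := Set.nonempty_iff_ne_empty.2 hemp
      refine ⟨sSup {r | cdf m r ≤ s}, ?_, fun r hr => le_csSup hbdd hr⟩
      have hcl : IsClosed {r | cdf m r ≤ s} := isClosed_le (cdf_cont hat) continuous_const
      have h1 : cdf m (sSup {r | cdf m r ≤ s}) ≤ s := hcl.csSup_mem hne hbdd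
      exact le_antisymm h1 (h0 ▸ cdf_nonneg m _)
    · have h1 := (tendsto_cdf_atBot m).eventually (gt_mem_nhds h0)
      obtain ⟨b, hb⟩ := h1.exists
      have hne : {r | cdf m r ≤ s}.Nonempty := ⟨b, hb.le⟩
      have hcl : IsClosed {r | cdf m r ≤ s} := isClosed_le (cdf_cont hat) continuous_const
      have h2 : cdf m (sSup {r | cdf m r ≤ s}) ≤ s := hcl.csSup_mem hne hbdd
      refine ⟨sSup {r | cdf m r ≤ s}, le_antisymm h2 ?_, fun r hr => le_csSup hbdd hr⟩
      have h3 : Tendsto (cdf m) (𝓝[>] (sSup {r | cdf m r ≤ s}))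
          (𝓝 (cdf m (sSup {r | cdf m r ≤ s}))) :=
        (cdf_cont hat).continuousAt.tendsto.mono_left nhdsWithin_le_nhds
      refine ge_of_tendsto h3 ?_
      filter_upwards [self_mem_nhdsWithin] with r hr
      by_contra hc
      push Not at hc
      exact absurd (le_csSup hbdd (show r ∈ {r | cdf m r ≤ s} from hc.le)) (not_le.2 hr)
  obtain ⟨c, hc, hc2⟩ := key
  have e1 : cdf m ⁻¹' Set.Iic s = Set.Iic c := by
    ext x
    simp only [Set.mem_preimage, Set.mem_Iic]
    exact ⟨fun h => hc2 x h, fun h => hc ▸ monotone_cdf m h⟩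
  rw [e1, e2, Real.volume_Ioc, sub_zero, ← hc, cdf_eq_real, ofReal_measureReal (measure_ne_top _ _)]

lemma Tm_law [IsProbabilityMeasure μ] (hat : ∀ x, μ {x} = 0) : μ.map (Tm μ) = U1 := by
  have hm : Measurable fun y : ℝ => |y| := measurable_norm
  have : IsProbabilityMeasure (μ.map fun y => |y|) :=
    Measure.isProbabilityMeasure_map hm.aemeasurable
  rw [← cdf_law (m := μ.map fun y => |y|) (abs_atom hat), Measure.map_map
    (monotone_cdf _).measurable hm]
  rfl

lemma inj_ae {ν : Measure ℝ} [IsProbabilityMeasure ν] (hat : ∀ x, ν {x} = 0) :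
    ∀ᵐ a ∂(PJ d ν), Function.Injective a := by
  have h0 : iIndepFun (fun (i : (Fin d → ℤ) × Fin d) (ω : (Fin d → ℤ) × Fin d → ℝ) => ω i)
      (PJ d ν) :=
    iIndepFun_infinitePi (P := fun _ : (Fin d → ℤ) × Fin d => ν) (X := fun _ x => x)
      (fun _ => measurable_id)
  have hmap : ∀ e : (Fin d → ℤ) × Fin d, (PJ d ν).map (fun a => a e) = ν := by
    intro e
    unfold PJ
    exact (measurePreserving_eval_infinitePi (fun _ : (Fin d → ℤ) × Fin d => ν) e).map_eq
  have h1 : ∀ e f : (Fin d → ℤ) × Fin d, e ≠ f → ∀ᵐ a ∂(PJ d ν), a e ≠ a f := by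
    intro e f hef
    have h2 := h0.indepFun hef
    rw [indepFun_iff_map_prod_eq_prod_map_map (measurable_pi_apply e).aemeasurable
      (measurable_pi_apply f).aemeasurable, hmap e, hmap f] at h2
    have hD : MeasurableSet {p : ℝ × ℝ | p.1 = p.2} := measurableSet_eq_fun measurable_fst
      measurable_snd
    have h3 : (ν.prod ν) {p : ℝ × ℝ | p.1 = p.2} = 0 := by
      rw [Measure.measure_prod_null hD]
      refine Filter.Eventually.of_forall fun x => ?_
      have : Prod.mk x ⁻¹' {p : ℝ × ℝ | p.1 = p.2} = {x} := by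
        ext y
        simp [eq_comm]
      show ν (Prod.mk x ⁻¹' {p : ℝ × ℝ | p.1 = p.2}) = 0
      rw [this]
      exact hat x
    rw [← h2, Measure.map_apply (by fun_prop) hD] at h3
    exact measure_eq_zero_iff_ae_notMem.1 h3
  have h2 : ∀ᵐ a ∂(PJ d ν), ∀ e f : (Fin d → ℤ) × Fin d, e ≠ f → a e ≠ a f := by
    rw [ae_all_iff]
    intro e
    rw [ae_all_iff]
    intro f
    by_cases h : e = f
    · exact Filter.Eventually.of_forall fun _ h' => absurd h h'
    · filter_upwards [h1 e f h] with a ha _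
      exact ha
  filter_upwards [h2] with a ha
  intro e f h
  by_contra hc
  exact ha e f hc h

/-- the field of the uniform variables -/
lemma map_Tm [IsProbabilityMeasure μ] (hat : ∀ x, μ {x} = 0) :
    (PJ d μ).map (fun J e => Tm μ (J e)) = PJ d U1 := by
  have h := Measure.infinitePi_map_pi (μ := fun _ : (Fin d → ℤ) × Fin d => μ) (f := fun _ => Tm μ)
    (fun _ => Tm_meas μ)
  unfold PJ
  rw [h]
  congr 1
  funext _
  exact Tm_law hat

/-- the order of the strengths is that of the uniform variables -/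
lemma order_ae [IsProbabilityMeasure μ] (hat : ∀ x, μ {x} = 0) :
    ∀ᵐ J ∂(PJ d μ), Function.Injective (fun e => |J e|) ∧
      ∀ e f, |J e| < |J f| ↔ Tm μ (J e) < Tm μ (J f) := by
  have h1 := inj_ae (d := d) U1_atom
  rw [← map_Tm (d := d) hat] at h1
  have hm : Measurable (fun (J : (Fin d → ℤ) × Fin d → ℝ) e => Tm μ (J e)) :=
    measurable_pi_lambda _ fun e => (Tm_meas μ).comp (measurable_pi_apply e)
  filter_upwards [ae_of_ae_map hm.aemeasurable h1] with J hJ
  refine ⟨fun e f h => hJ ?_, fun e f => ⟨fun h => ?_, fun h => ?_⟩⟩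
  · have h' : |J e| = |J f| := h
    exact le_antisymm (Tm_mono μ h'.le) (Tm_mono μ h'.ge)
  · refine lt_of_le_of_ne (Tm_mono μ h.le) fun h2 => ?_
    have h3 : e = f := hJ h2
    rw [h3] at h
    exact lt_irrefl _ h
  · by_contra hc
    push Not at hc
    exact absurd (Tm_mono μ hc) (not_le.2 h)

lemma Top_congr {a b : (Fin d → ℤ) × Fin d → ℝ} (h : ∀ e f, a e < a f ↔ b e < b f) (M : ℕ) :
    Top a M = Top b M := by
  ext e
  constructor
  · rintro ⟨A, h1, h2, h3⟩
    exact ⟨A, h1, h2, fun f hf hfe => (h f e).1 (h3 f hf hfe)⟩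
  · rintro ⟨A, h1, h2, h3⟩
    exact ⟨A, h1, h2, fun f hf hfe => (h f e).2 (h3 f hf hfe)⟩

lemma Top_meas (e : (Fin d → ℤ) × Fin d) (M : ℕ) :
    MeasurableSet {a : (Fin d → ℤ) × Fin d → ℝ | e ∈ Top a M} := by
  classical
  have h1 : {a : (Fin d → ℤ) × Fin d → ℝ | e ∈ Top a M} =
      ⋃ A ∈ {A : Finset (Fin d → ℤ) | A ⊆ Bx d M ∧ e ∈ cut A},
        ⋂ f ∈ {f | f ∈ cut A ∧ f ≠ e}, {a : (Fin d → ℤ) × Fin d → ℝ | a f < a e} := by
    ext a
    simp only [Top, Set.mem_ofPred_eq, Set.mem_iUnion, Set.mem_iInter, exists_prop]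
    constructor
    · rintro ⟨A, h1, h2, h3⟩
      exact ⟨A, ⟨h1, h2⟩, fun f hf => h3 f hf.1 hf.2⟩
    · rintro ⟨A, ⟨h1, h2⟩, h3⟩
      exact ⟨A, h1, h2, fun f hf hfe => h3 f ⟨hf, hfe⟩⟩
  rw [h1]
  refine MeasurableSet.biUnion (Set.to_countable _) fun A _ => ?_
  refine MeasurableSet.biInter (Set.to_countable _) fun f _ => ?_
  exact measurableSet_lt (measurable_pi_apply f) (measurable_pi_apply e)

lemma Reach_meas (u v : Fin d → ℤ) (M : ℕ) :
    MeasurableSet {a : (Fin d → ℤ) × Fin d → ℝ | Reach (Top a M) u v} := by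
  have h1 : {a : (Fin d → ℤ) × Fin d → ℝ | Reach (Top a M) u v} =
      ⋃ S ∈ {S : Finset ((Fin d → ℤ) × Fin d) | Reach (S : Set _) u v},
        ⋂ e ∈ (S : Set ((Fin d → ℤ) × Fin d)), {a | e ∈ Top a M} := by
    ext a
    simp only [Set.mem_ofPred_eq, Set.mem_iUnion, Set.mem_iInter, exists_prop]
    constructor
    · intro h
      obtain ⟨S, hS, hR⟩ := h.finite
      exact ⟨S, hR, fun e he => hS he⟩
    · rintro ⟨S, hR, hS⟩
      exact hR.mono fun e he => hS e he
  rw [h1]
  refine MeasurableSet.biUnion (Set.to_countable _) fun S _ => ?_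
  exact MeasurableSet.biInter (Set.to_countable _) fun e _ => Top_meas e M

/-- the strengths -/
def ab (J : (Fin d → ℤ) × Fin d → ℝ) : (Fin d → ℤ) × Fin d → ℝ := fun e => |J e|

lemma ab_meas : Measurable (ab (d := d)) :=
  measurable_pi_lambda _ fun e => measurable_norm.comp (measurable_pi_apply e)

/-- events which depend on the order only have the same probability for all laws -/
lemma order_law [IsProbabilityMeasure μ] (hat : ∀ x, μ {x} = 0)
    {E : Set ((Fin d → ℤ) × Fin d → ℝ)} (hE : MeasurableSet E)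
    (hord : ∀ a b : (Fin d → ℤ) × Fin d → ℝ, (∀ e f, a e < a f ↔ b e < b f) → a ∈ E → b ∈ E) :
    (PJ d μ).real (ab ⁻¹' E) = (PJ d U1).real E := by
  have hm : Measurable (fun (J : (Fin d → ℤ) × Fin d → ℝ) e => Tm μ (J e)) :=
    measurable_pi_lambda _ fun e => (Tm_meas μ).comp (measurable_pi_apply e)
  rw [← map_Tm (d := d) hat, measureReal_def, measureReal_def, Measure.map_apply hm hE]
  congr 1
  refine measure_congr ?_
  filter_upwards [order_ae (d := d) hat] with J hJ
  refine propext ⟨fun h => hord _ _ hJ.2 h, fun h => hord _ _ (fun e f => (hJ.2 e f).symm) h⟩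

end

end Pool.Agent.L5helper98.EA
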