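import Pool.Agent.L5helper98.EA.Max

/-!
# Averages over boxes of events which are limits of increasing local events
-/

set_option autoImplicit false

open MeasureTheory Filter Topology ProbabilityTheory

namespace Pool.Agent.L5helper98.EA

variable {d : ℕ}

/-- the event depends on the bonds of a box only -/
def Local (M : ℕ) (B : Set ((Fin d → ℤ) × Fin d → ℝ)) : Prop :=
  ∀ J J' : (Fin d → ℤ) × Fin d → ℝ, (∀ e ∈ BB d M, J e = J' e) → J ∈ B → J' ∈ B

/-- the indicator of the translated event -/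
noncomputable def Xv (B : Set ((Fin d → ℤ) × Fin d → ℝ)) (v : Fin d → ℤ) :
    ((Fin d → ℤ) × Fin d → ℝ) → ℝ :=
  (sh v ⁻¹' B).indicator fun _ => 1

theorem Xv_nonneg (B : Set ((Fin d → ℤ) × Fin d → ℝ)) (v : Fin d → ℤ)
    (J : (Fin d → ℤ) × Fin d → ℝ) : 0 ≤ Xv B v J := by
  unfold Xv
  exact Set.indicator_nonneg (fun _ _ => zero_le_one) _

theorem Xv_le_one (B : Set ((Fin d → ℤ) × Fin d → ℝ)) (v : Fin d → ℤ)
    (J : (Fin d → ℤ) × Fin d → ℝ) : Xv B v J ≤ 1 := by
  unfold Xv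
  exact Set.indicator_le_self' (fun _ _ => zero_le_one) _

section

variable {μ : Measure ℝ} [IsProbabilityMeasure μ] {B : Set ((Fin d → ℤ) × Fin d → ℝ)}

theorem Xv_meas (hB : MeasurableSet B) (v : Fin d → ℤ) : Measurable (Xv B v) :=
  measurable_const.indicator (sh_meas v hB)

theorem Xv_memLp (hB : MeasurableSet B) (v : Fin d → ℤ) : MemLp (Xv B v) 2 (PJ d μ) := by
  refine MemLp.of_bound (Xv_meas hB v).aestronglyMeasurable 1 (Eventually.of_forall fun J => ?_)
  rw [Real.norm_of_nonneg (Xv_nonneg B v J)]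
  exact Xv_le_one B v J

theorem Xv_mean (hB : MeasurableSet B) (v : Fin d → ℤ) :
    ∫ J, Xv B v J ∂(PJ d μ) = (PJ d μ).real B := by
  unfold Xv
  rw [integral_indicator (sh_meas v hB), setIntegral_const, smul_eq_mul, mul_one, sh_pres μ v hB]

/-- the edges on which `Xv B v` depends -/
noncomputable def Sv (M : ℕ) (v : Fin d → ℤ) : Finset ((Fin d → ℤ) × Fin d) :=
  (BB d M).map (te v).toEmbedding

/-- extension by zero -/
noncomputable def ext (S : Finset ((Fin d → ℤ) × Fin d)) (x : S → ℝ) :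
    (Fin d → ℤ) × Fin d → ℝ := by
  classical exact fun e => if h : e ∈ S then x ⟨e, h⟩ else 0

theorem ext_meas (S : Finset ((Fin d → ℤ) × Fin d)) : Measurable (ext S) := by
  classical
  refine measurable_pi_lambda _ fun e => ?_
  unfold ext
  by_cases h : e ∈ S
  · simp only [h, dif_pos]
    exact measurable_pi_apply _
  · simp only [h, dif_neg, not_false_iff]
    exact measurable_const

theorem Xv_eq {M : ℕ} (hloc : Local M B)
    (v : Fin d → ℤ) (J : (Fin d → ℤ) × Fin d → ℝ) :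
    Xv B v J = Xv B v (ext (Sv M v) (fun i : Sv M v => J i)) := by
  classical
  have hag : ∀ e ∈ BB d M, sh v J e = sh v (ext (Sv M v) (fun i : Sv M v => J i)) e := by
    intro e he
    have hmem : te v e ∈ Sv M v := Finset.mem_map_of_mem _ he
    rw [sh_apply, sh_apply]
    unfold ext
    simp only [hmem, dif_pos]
  have hiff : sh v J ∈ B ↔ sh v (ext (Sv M v) (fun i : Sv M v => J i)) ∈ B :=
    ⟨fun h => hloc _ _ hag h, fun h => hloc _ _ (fun e he => (hag e he).symm) h⟩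
  unfold Xv
  by_cases h : sh v J ∈ B
  · rw [Set.indicator_of_mem (show J ∈ sh v ⁻¹' B from h),
      Set.indicator_of_mem (show _ ∈ sh v ⁻¹' B from hiff.1 h)]
  · rw [Set.indicator_of_notMem (show J ∉ sh v ⁻¹' B from h),
      Set.indicator_of_notMem (show _ ∉ sh v ⁻¹' B from fun h' => h (hiff.2 h'))]

theorem Xv_indep (hB : MeasurableSet B) {M : ℕ} (hloc : Local M B)
    {v w : Fin d → ℤ} (hd : Disjoint (Sv M v) (Sv M w)) :
    IndepFun (Xv B v) (Xv B w) (PJ d μ) := by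
  have h0 : iIndepFun (fun (i : (Fin d → ℤ) × Fin d) (ω : (Fin d → ℤ) × Fin d → ℝ) => ω i)
      (PJ d μ) :=
    iIndepFun_infinitePi (P := fun _ : (Fin d → ℤ) × Fin d => μ) (X := fun _ x => x)
      (fun _ => measurable_id)
  have h := h0.indepFun_finset (Sv M v) (Sv M w) hd (fun i => measurable_pi_apply i)
  have h2 := h.comp (φ := fun x => Xv B v (ext (Sv M v) x)) (ψ := fun x => Xv B w (ext (Sv M w) x))
    ((Xv_meas hB v).comp (ext_meas _)) ((Xv_meas hB w).comp (ext_meas _))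
  have e1 : (fun x => Xv B v (ext (Sv M v) x)) ∘
      (fun (a : (Fin d → ℤ) × Fin d → ℝ) (i : Sv M v) => a i) = Xv B v := by
    funext J
    exact (Xv_eq hloc v J).symm
  have e2 : (fun x => Xv B w (ext (Sv M w) x)) ∘
      (fun (a : (Fin d → ℤ) × Fin d → ℝ) (i : Sv M w) => a i) = Xv B w := by
    funext J
    exact (Xv_eq hloc w J).symm
  rw [e1, e2] at h2
  exact h2

/-- near sites -/
def Near (M : ℕ) (v w : Fin d → ℤ) : Prop := ∀ i, |v i - w i| ≤ 2 * M

theorem disj {M : ℕ} {v w : Fin d → ℤ} (h : ¬ Near M v w) : Disjoint (Sv M v) (Sv M w) := by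
  rw [Finset.disjoint_left]
  intro e he he'
  obtain ⟨a, ha, hae⟩ := Finset.mem_map.1 he
  obtain ⟨b, hb, hbe⟩ := Finset.mem_map.1 he'
  apply h
  intro i
  have h1 := mem_BB.1 ha i
  have h2 := mem_BB.1 hb i
  have h3 : te v a = te w b := hae.trans hbe.symm
  have h4 : a.1 i + v i = b.1 i + w i :=
    congrFun (congrArg (fun e : (Fin d → ℤ) × Fin d => e.1) h3) i
  rw [abs_le] at h1 h2 ⊢
  omega

theorem cov_le (hB : MeasurableSet B) (v w : Fin d → ℤ) :
    cov[Xv B v, Xv B w; PJ d μ] ≤ 1 := by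
  rw [covariance_eq_sub (Xv_memLp hB v) (Xv_memLp hB w), Xv_mean hB, Xv_mean hB]
  have h1 : ∫ J, (Xv B v * Xv B w) J ∂(PJ d μ) ≤ 1 := by
    calc ∫ J, (Xv B v * Xv B w) J ∂(PJ d μ) ≤ ∫ _, (1 : ℝ) ∂(PJ d μ) := by
          refine integral_mono_of_nonneg (Eventually.of_forall fun J => ?_) (integrable_const _)
            (Eventually.of_forall fun J => ?_)
          · exact mul_nonneg (Xv_nonneg B v J) (Xv_nonneg B w J)
          · exact mul_le_one₀ (Xv_le_one B v J) (Xv_nonneg B w J) (Xv_le_one B w J)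
      _ = 1 := by simp
  have h2 : 0 ≤ (PJ d μ).real B := measureReal_nonneg
  nlinarith

open Classical in
theorem cov_le' (hB : MeasurableSet B) {M : ℕ} (hloc : Local M B) (v w : Fin d → ℤ) :
    cov[Xv B v, Xv B w; PJ d μ] ≤ if Near M v w then 1 else 0 := by
  by_cases h : Near M v w
  · rw [if_pos h]
    exact cov_le hB v w
  · rw [if_neg h, (Xv_indep hB hloc (disj h)).covariance_eq_zero (Xv_memLp hB v) (Xv_memLp hB w)]

open Classical in
theorem card_near (M n : ℕ) (v : Fin d → ℤ) : ((Bx d n).filter fun w => Near M v w).card ≤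
    (4 * M + 1) ^ d := by
  have hsub : ((Bx d n).filter fun w => Near M v w) ⊆ (Bx d (2 * M)).image fun w => w + v := by
    intro w hw
    have h1 := (Finset.mem_filter.1 hw).2
    rw [Finset.mem_image]
    refine ⟨w - v, mem_Bx.2 fun i => ?_, by simp⟩
    have := h1 i
    simp only [Pi.sub_apply]
    rw [abs_sub_comm]
    push_cast
    exact this
  refine (Finset.card_le_card hsub).trans (Finset.card_image_le.trans ?_)
  rw [card_Bx]
  exact Nat.pow_le_pow_left (by omega) d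

/-- the number of the translates -/
noncomputable def Nn (B : Set ((Fin d → ℤ) × Fin d → ℝ)) (n : ℕ)
    (J : (Fin d → ℤ) × Fin d → ℝ) : ℝ := ∑ v ∈ Bx d n, Xv B v J

theorem Nn_eq (B : Set ((Fin d → ℤ) × Fin d → ℝ)) (n : ℕ) (J : (Fin d → ℤ) × Fin d → ℝ) :
    (cn n {v | sh v J ∈ B} : ℝ) = Nn B n J := cn_eq n B J

theorem Nn_memLp (hB : MeasurableSet B) (n : ℕ) : MemLp (Nn B n) 2 (PJ d μ) :=
  memLp_finsetSum _ fun v _ => Xv_memLp hB v

theorem Nn_mean (hB : MeasurableSet B) (n : ℕ) :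
    ∫ J, Nn B n J ∂(PJ d μ) = (PJ d μ).real B * (2 * (n : ℝ) + 1) ^ d := by
  unfold Nn
  rw [integral_finsetSum _ fun v _ => (Xv_memLp hB v).integrable (by norm_num)]
  rw [Finset.sum_congr rfl fun v _ => Xv_mean hB v, Finset.sum_const, card_Bx, nsmul_eq_mul]
  push_cast
  ring

theorem Nn_var (hB : MeasurableSet B) {M : ℕ} (hloc : Local M B) (n : ℕ) :
    variance (Nn B n) (PJ d μ) ≤ (2 * (n : ℝ) + 1) ^ d * (4 * (M : ℝ) + 1) ^ d := by
  classical
  have h0 : variance (Nn B n) (PJ d μ) =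
      ∑ v ∈ Bx d n, ∑ w ∈ Bx d n, cov[Xv B v, Xv B w; PJ d μ] :=
    variance_fun_sum' fun v _ => Xv_memLp hB v
  rw [h0]
  calc ∑ v ∈ Bx d n, ∑ w ∈ Bx d n, cov[Xv B v, Xv B w; PJ d μ]
      ≤ ∑ v ∈ Bx d n, ∑ w ∈ Bx d n, (if Near M v w then (1 : ℝ) else 0) :=
        Finset.sum_le_sum fun v _ => Finset.sum_le_sum fun w _ => cov_le' hB hloc v w
    _ ≤ ∑ v ∈ Bx d n, (4 * (M : ℝ) + 1) ^ d := by
        refine Finset.sum_le_sum fun v _ => ?_
        rw [← Finset.sum_filter, Finset.sum_const, nsmul_eq_mul, mul_one]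
        exact_mod_cast card_near M n v
    _ = _ := by
        rw [Finset.sum_const, card_Bx, nsmul_eq_mul]
        push_cast
        ring

/-- law of large numbers for a local event -/
theorem lln (hd : 2 ≤ d) {M : ℕ} (hB : MeasurableSet B) (hloc : Local M B) {η : ℝ} (hη : 0 < η) :
    ∀ᵐ J ∂(PJ d μ), ∀ᶠ n : ℕ in atTop,
    (cn n {v | sh v J ∈ B} : ℝ) ≤ ((PJ d μ).real B + η) * (2 * (n : ℝ) + 1) ^ d := by
  set p : ℝ := (PJ d μ).real B with hp
  set K : ℝ := (4 * (M : ℝ) + 1) ^ d with hK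
  let s : ℕ → Set ((Fin d → ℤ) × Fin d → ℝ) := fun n =>
    {J | η * (2 * (n : ℝ) + 1) ^ d ≤ |Nn B n J - ∫ J', Nn B n J' ∂(PJ d μ)|}
  have hs : ∀ n : ℕ, (PJ d μ) (s n) ≤ ENNReal.ofReal (K / η ^ 2 * (1 / ((n : ℝ) + 1) ^ 2)) := by
    intro n
    have hc : 0 < η * (2 * (n : ℝ) + 1) ^ d := by positivity
    refine (meas_ge_le_variance_div_sq (Nn_memLp hB n) hc).trans (ENNReal.ofReal_le_ofReal ?_)
    have h1 := Nn_var (μ := μ) hB hloc n
    rw [div_le_iff₀ (by positivity)]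
    refine h1.trans ?_
    have hn : (0 : ℝ) ≤ n := Nat.cast_nonneg n
    have h2 : ((n : ℝ) + 1) ^ 2 ≤ (2 * (n : ℝ) + 1) ^ d := by
      calc ((n : ℝ) + 1) ^ 2 ≤ (2 * (n : ℝ) + 1) ^ 2 := by nlinarith
        _ ≤ (2 * (n : ℝ) + 1) ^ d := pow_le_pow_right₀ (by linarith) hd
    have h3 : K / η ^ 2 * (1 / ((n : ℝ) + 1) ^ 2) * (η * (2 * (n : ℝ) + 1) ^ d) ^ 2 =
        (2 * (n : ℝ) + 1) ^ d * K * ((2 * (n : ℝ) + 1) ^ d / ((n : ℝ) + 1) ^ 2) := by
      field_simp
    rw [h3]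
    have h4 : 1 ≤ (2 * (n : ℝ) + 1) ^ d / ((n : ℝ) + 1) ^ 2 := by
      rw [le_div_iff₀ (by positivity), one_mul]
      exact h2
    exact le_mul_of_one_le_right (by positivity) h4
  have hsum : Summable fun n : ℕ => K / η ^ 2 * (1 / ((n : ℝ) + 1) ^ 2) := by
    apply Summable.mul_left
    have h := (summable_nat_add_iff 1).2 (Real.summable_one_div_nat_pow.2 (by norm_num : 1 < 2))
    refine h.congr fun n => ?_
    push_cast
    rfl
  have hfin : ∑' n, (PJ d μ) (s n) ≠ ⊤ :=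
    ne_top_of_le_ne_top hsum.tsum_ofReal_ne_top (ENNReal.tsum_le_tsum hs)
  filter_upwards [ae_eventually_notMem hfin] with J hJ
  filter_upwards [hJ] with n hn
  rw [Nn_eq]
  simp only [s, Set.mem_ofPred_eq, not_le] at hn
  rw [Nn_mean hB] at hn
  have h5 := (abs_lt.1 hn).2
  rw [← hp] at h5
  linarith

lemma cn_mono (n : ℕ) {D D' : Set (Fin d → ℤ)} (h : D ⊆ D') : cn n D ≤ cn n D' := by
  classical
  unfold cn
  exact Finset.card_le_card fun v hv => by
    rw [Finset.mem_filter] at hv ⊢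
    exact ⟨hv.1, h hv.2⟩

lemma cn_union (n : ℕ) (D D' : Set (Fin d → ℤ)) : cn n (D ∪ D') ≤ cn n D + cn n D' := by
  classical
  unfold cn
  refine le_trans (Finset.card_le_card fun v hv => ?_) (Finset.card_union_le _ _)
  simp only [Finset.mem_filter, Finset.mem_union, Set.mem_union] at hv ⊢
  tauto

/-- averages over boxes of the differences between the limit of local events and its terms -/
theorem avg (hd : 2 ≤ d) {A : ℕ → Set ((Fin d → ℤ) × Fin d → ℝ)} (hA : ∀ N, MeasurableSet (A N))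
    (hloc : ∀ N, ∃ M, Local M (A N)) (hmono : Monotone A) (M : ℕ) {η : ℝ} (hη : 0 < η) :
    ∀ᵐ J ∂(PJ d μ), ∀ᶠ n : ℕ in atTop,
    (cn n {v | sh v J ∈ (⋃ N, A N) \ A M} : ℝ) ≤
      ((PJ d μ).real ((⋃ N, A N) \ A M) + η) * (2 * (n : ℝ) + 1) ^ d := by
  have hU : MeasurableSet (⋃ N, A N) := MeasurableSet.iUnion hA
  -- the local parts
  have h1 : ∀ᵐ J ∂(PJ d μ), ∀ N, ∀ᶠ n : ℕ in atTop, (cn n {v | sh v J ∈ A N \ A M} : ℝ) ≤
      ((PJ d μ).real (A N \ A M) + η / 2) * (2 * (n : ℝ) + 1) ^ d := by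
    rw [ae_all_iff]
    intro N
    obtain ⟨M1, hM1⟩ := hloc N
    obtain ⟨M2, hM2⟩ := hloc M
    refine lln (M := max M1 M2) hd ((hA N).diff (hA M)) ?_ (by positivity)
    intro J J' hJ hJA
    have g1 : ∀ e ∈ BB d M1, J e = J' e := by
      intro e he
      refine hJ e ?_
      rw [mem_BB] at he ⊢
      intro i
      refine (he i).trans ?_
      exact_mod_cast le_max_left _ _
    have g2 : ∀ e ∈ BB d M2, J e = J' e := by
      intro e he
      refine hJ e ?_
      rw [mem_BB] at he ⊢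
      intro i
      refine (he i).trans ?_
      exact_mod_cast le_max_right _ _
    exact ⟨hM1 J J' g1 hJA.1, fun h => hJA.2 (hM2 J' J (fun e he => (g2 e he).symm) h)⟩
  -- the tails
  have h2 : ∀ᵐ J ∂(PJ d μ), ∃ N, ∀ n : ℕ, (cn n {v | sh v J ∈ (⋃ N, A N) \ A N} : ℝ) ≤
      η / 2 * (2 * (n : ℝ) + 1) ^ d := by
    set S : ℕ → Set ((Fin d → ℤ) × Fin d → ℝ) := fun N =>
      {J | ∃ n : ℕ, η / 2 * (2 * (n : ℝ) + 1) ^ d < cn n {w | sh w J ∈ (⋃ N, A N) \ A N}} with hS
    have h3 : ∀ N, η / 2 * (PJ d μ).real (S N) ≤ 3 ^ d * (PJ d μ).real ((⋃ N, A N) \ A N) :=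
      fun N => maximal (hU.diff (hA N)) (by positivity)
    have h4 : Tendsto (fun N => (PJ d μ).real ((⋃ N, A N) \ A N)) atTop (𝓝 0) := by
      have h5 := tendsto_measure_iUnion_atTop (μ := PJ d μ) hmono
      have h6 : Tendsto (fun N => (PJ d μ).real (A N)) atTop (𝓝 ((PJ d μ).real (⋃ N, A N))) :=
        (ENNReal.tendsto_toReal (measure_ne_top _ _)).comp h5
      have h7 : ∀ N, (PJ d μ).real ((⋃ N, A N) \ A N) =
          (PJ d μ).real (⋃ N, A N) - (PJ d μ).real (A N) := fun N =>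
        measureReal_sdiff (Set.subset_iUnion A N) (hA N)
      simp only [h7]
      have h8 := (tendsto_const_nhds (x := (PJ d μ).real (⋃ N, A N))).sub h6
      rwa [sub_self] at h8
    have h5 : Tendsto (fun N => (PJ d μ).real (S N)) atTop (𝓝 0) := by
      have h6 : Tendsto (fun N => 2 / η * (3 ^ d * (PJ d μ).real ((⋃ N, A N) \ A N))) atTop
          (𝓝 (2 / η * (3 ^ d * 0))) := (h4.const_mul _).const_mul _
      rw [mul_zero, mul_zero] at h6
      refine squeeze_zero (fun N => measureReal_nonneg) (fun N => ?_) h6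
      have := h3 N
      have e1 : (PJ d μ).real (S N) = 2 / η * (η / 2 * (PJ d μ).real (S N)) := by
        field_simp
      rw [e1]
      exact mul_le_mul_of_nonneg_left this (by positivity)
    have h6 : (PJ d μ) (⋂ N, S N) = 0 := by
      have h7 : ∀ N, (PJ d μ).real (⋂ N, S N) ≤ (PJ d μ).real (S N) := fun N =>
        measureReal_mono (Set.iInter_subset _ N) (measure_ne_top _ _)
      have h8 : (PJ d μ).real (⋂ N, S N) ≤ 0 := ge_of_tendsto' h5 h7
      have h9 : (PJ d μ).real (⋂ N, S N) = 0 := le_antisymm h8 measureReal_nonneg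
      rwa [measureReal_def, ENNReal.toReal_eq_zero_iff, or_iff_left (measure_ne_top _ _)] at h9
    have h7 : ∀ᵐ J ∂(PJ d μ), J ∉ ⋂ N, S N := measure_eq_zero_iff_ae_notMem.1 h6
    filter_upwards [h7] with J hJ
    rw [Set.mem_iInter] at hJ
    push Not at hJ
    obtain ⟨N, hN⟩ := hJ
    refine ⟨N, fun n => ?_⟩
    by_contra hc
    push Not at hc
    exact hN ⟨n, hc⟩
  filter_upwards [h1, h2] with J j1 j2
  obtain ⟨N, hN⟩ := j2
  filter_upwards [j1 N] with n hn
  have h3 : {v | sh v J ∈ (⋃ N, A N) \ A M} ⊆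
      {v | sh v J ∈ A N \ A M} ∪ {v | sh v J ∈ (⋃ N, A N) \ A N} := by
    rintro v ⟨hv1, hv2⟩
    by_cases h : sh v J ∈ A N
    · exact Or.inl ⟨h, hv2⟩
    · exact Or.inr ⟨hv1, h⟩
  have h4 : (cn n {v | sh v J ∈ (⋃ N, A N) \ A M} : ℝ) ≤
      cn n {v | sh v J ∈ A N \ A M} + cn n {v | sh v J ∈ (⋃ N, A N) \ A N} := by
    exact_mod_cast (cn_mono n h3).trans (cn_union n _ _)
  have h5 : (PJ d μ).real (A N \ A M) ≤ (PJ d μ).real ((⋃ N, A N) \ A M) :=
    measureReal_mono (Set.sdiff_subset_sdiff_left (Set.subset_iUnion A N)) (measure_ne_top _ _)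
  have h6 : (0 : ℝ) ≤ (2 * (n : ℝ) + 1) ^ d := by positivity
  have h7 := hN n
  nlinarith [mul_le_mul_of_nonneg_right h5 h6]

end

end Pool.Agent.L5helper98.EA
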