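import Pool.Agent.L5helper98.EA.Det

/-!
# The maximal inequality for averages over boxes
-/

set_option autoImplicit false

open MeasureTheory Filter Topology

namespace Pool.Agent.L5helper98.EA

variable {d : ℕ}

/-- the law of iid couplings -/
noncomputable def PJ (d : ℕ) (μ : Measure ℝ) : Measure ((Fin d → ℤ) × Fin d → ℝ) :=
  Measure.infinitePi fun _ : (Fin d → ℤ) × Fin d => μ

instance (μ : Measure ℝ) [IsProbabilityMeasure μ] : IsProbabilityMeasure (PJ d μ) := by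
  unfold PJ; infer_instance

/-- translation of the couplings -/
def sh (v : Fin d → ℤ) (J : (Fin d → ℤ) × Fin d → ℝ) : (Fin d → ℤ) × Fin d → ℝ :=
  fun e => J (e.1 + v, e.2)

/-- translation of the bonds -/
def te (v : Fin d → ℤ) : ((Fin d → ℤ) × Fin d) ≃ ((Fin d → ℤ) × Fin d) where
  toFun e := (e.1 + v, e.2)
  invFun e := (e.1 - v, e.2)
  left_inv e := by simp
  right_inv e := by simp

theorem sh_apply (v : Fin d → ℤ) (J : (Fin d → ℤ) × Fin d → ℝ) (e : (Fin d → ℤ) × Fin d) :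
    sh v J e = J (te v e) := rfl

theorem sh_meas (v : Fin d → ℤ) : Measurable (sh v) :=
  measurable_pi_lambda _ fun e => measurable_pi_apply (te v e)

theorem sh_map (μ : Measure ℝ) [IsProbabilityMeasure μ] (v : Fin d → ℤ) :
    (PJ d μ).map (sh v) = PJ d μ := by
  unfold PJ
  exact Measure.map_infinitePi_infinitePi_of_inj (P := fun _ : (Fin d → ℤ) × Fin d => μ)
    (te v).injective

theorem sh_sh (v w : Fin d → ℤ) (J : (Fin d → ℤ) × Fin d → ℝ) : sh w (sh v J) = sh (w + v) J := by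
  funext e
  simp only [sh, add_assoc]

theorem sh_pres (μ : Measure ℝ) [IsProbabilityMeasure μ] (v : Fin d → ℤ) {B : Set _}
    (hB : MeasurableSet B) : (PJ d μ).real (sh v ⁻¹' B) = (PJ d μ).real B := by
  rw [measureReal_def, measureReal_def, ← Measure.map_apply (sh_meas v) hB, sh_map]

open Classical in
/-- the number of the points of the box in a set -/
noncomputable def cn (n : ℕ) (D : Set (Fin d → ℤ)) : ℕ := ((Bx d n).filter fun w => w ∈ D).card

open Classical in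
/-- Covering lemma. -/
theorem covering (D : Set (Fin d → ℤ)) {c : ℝ} (hc : 0 < c) (R L : ℕ) :
    c * (cn L {v | ∃ n ≤ R, c * (2 * (n : ℝ) + 1) ^ d < cn n {w | w + v ∈ D}} : ℝ) ≤
      3 ^ d * (cn (L + R) D : ℝ) := by
  classical
  set t : Finset (Fin d → ℤ) := (Bx d L).filter fun v =>
    ∃ n ≤ R, c * (2 * (n : ℝ) + 1) ^ d < cn n {w | w + v ∈ D} with ht
  have hN : ∀ v : Fin d → ℤ, ∃ n : ℕ, v ∈ t → n ≤ R ∧ c * (2 * (n : ℝ) + 1) ^ d <
      cn n {w | w + v ∈ D} := by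
    intro v
    by_cases hv : v ∈ t
    · obtain ⟨n, h1, h2⟩ := (Finset.mem_filter.1 hv).2
      exact ⟨n, fun _ => ⟨h1, h2⟩⟩
    · exact ⟨0, fun h => absurd h hv⟩
  choose N hN using hN
  obtain ⟨u, hut, hdis, hcov⟩ := Vitali.exists_disjoint_subfamily_covering_enlargement
    (fun v : Fin d → ℤ => {w : Fin d → ℤ | ∀ i, |w i - v i| ≤ N v}) (t : Set (Fin d → ℤ))
    (fun v => (N v : ℝ)) (3 / 2) (by norm_num) (fun _ _ => Nat.cast_nonneg _) R
    (fun v hv => by exact_mod_cast (hN v hv).1) (fun v _ => ⟨v, by simp⟩)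
  have hufin : u.Finite := t.finite_toSet.subset hut
  set U : Finset (Fin d → ℤ) := hufin.toFinset with hU
  have hUt : ∀ b ∈ U, b ∈ t := fun b hb => hut (hufin.mem_toFinset.1 hb)
  -- the points are covered by the enlarged boxes
  have h1 : t ⊆ U.biUnion fun b => (Bx d (3 * N b)).image (fun w => w + b) := by
    intro v hv
    obtain ⟨b, hb, ⟨w, hw1, hw2⟩, h3⟩ := hcov v hv
    rw [Finset.mem_biUnion]
    refine ⟨b, hufin.mem_toFinset.2 hb, ?_⟩
    rw [Finset.mem_image]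
    refine ⟨v - b, mem_Bx.2 fun i => ?_, by simp⟩
    have a1 := hw1 i
    have a2 := hw2 i
    have a3 : 2 * N v ≤ 3 * N b := by
      have : (2 : ℝ) * N v ≤ 3 * N b := by
        have h3' : (N v : ℝ) ≤ 3 / 2 * N b := h3
        linarith
      exact_mod_cast this
    simp only [Pi.sub_apply]
    push_cast
    rw [abs_le] at a1 a2 ⊢
    omega
  have h2 : (t.card : ℝ) ≤ ∑ b ∈ U, (3 : ℝ) ^ d * (2 * (N b : ℝ) + 1) ^ d := by
    have h3 : t.card ≤ ∑ b ∈ U, (2 * (3 * N b) + 1) ^ d := by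
      refine (Finset.card_le_card h1).trans (Finset.card_biUnion_le.trans ?_)
      exact Finset.sum_le_sum fun b _ => Finset.card_image_le.trans (card_Bx _).le
    have h4 : (t.card : ℝ) ≤ ∑ b ∈ U, ((2 : ℝ) * (3 * N b) + 1) ^ d := by exact_mod_cast h3
    refine h4.trans (Finset.sum_le_sum fun b _ => ?_)
    rw [← mul_pow]
    refine pow_le_pow_left₀ (by positivity) ?_ d
    linarith
  -- the disjoint boxes contain many points
  have h5 : ∑ b ∈ U, cn (N b) {w | w + b ∈ D} ≤ cn (L + R) D := by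
    have h6 : ∀ b : Fin d → ℤ, cn (N b) {w | w + b ∈ D} =
        (((Bx d (N b)).filter fun w => w + b ∈ D).image (fun w => w + b)).card := by
      intro b
      rw [Finset.card_image_of_injective _ (add_left_injective b)]
      rfl
    rw [Finset.sum_congr rfl fun b _ => h6 b, ← Finset.card_biUnion]
    · unfold cn
      refine Finset.card_le_card fun x hx => ?_
      rw [Finset.mem_biUnion] at hx
      obtain ⟨b, hb, hx⟩ := hx
      rw [Finset.mem_image] at hx
      obtain ⟨w, hw, rfl⟩ := hx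
      rw [Finset.mem_filter] at hw ⊢
      refine ⟨mem_Bx.2 fun i => ?_, hw.2⟩
      have a1 := mem_Bx.1 hw.1 i
      have a2 := mem_Bx.1 (Finset.mem_filter.1 (hUt b hb)).1 i
      have a3 := (hN b (hUt b hb)).1
      simp only [Pi.add_apply]
      push_cast
      rw [abs_le] at a1 a2 ⊢
      omega
    · intro b hb b' hb' hbb
      have h7 := hdis (hufin.mem_toFinset.1 hb) (hufin.mem_toFinset.1 hb') hbb
      rw [Function.onFun, Finset.disjoint_left]
      intro x hx hx'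
      rw [Finset.mem_image] at hx hx'
      obtain ⟨w, hw, rfl⟩ := hx
      obtain ⟨w', hw', hww⟩ := hx'
      have g1 : w + b ∈ {x : Fin d → ℤ | ∀ i, |x i - b i| ≤ N b} := by
        intro i
        have := mem_Bx.1 (Finset.mem_filter.1 hw).1 i
        simpa using this
      have g2 : w + b ∈ {x : Fin d → ℤ | ∀ i, |x i - b' i| ≤ N b'} := by
        intro i
        rw [← hww]
        have := mem_Bx.1 (Finset.mem_filter.1 hw').1 i
        simpa using this
      exact Set.disjoint_left.1 h7 g1 g2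
  have h8 : cn L {v | ∃ n ≤ R, c * (2 * (n : ℝ) + 1) ^ d < cn n {w | w + v ∈ D}} = t.card := by
    unfold cn
    congr 1
    ext v
    simp [ht, cn]
  rw [h8]
  calc c * (t.card : ℝ) ≤ c * ∑ b ∈ U, (3 : ℝ) ^ d * (2 * (N b : ℝ) + 1) ^ d :=
        mul_le_mul_of_nonneg_left h2 hc.le
    _ = 3 ^ d * ∑ b ∈ U, c * (2 * (N b : ℝ) + 1) ^ d := by
        rw [Finset.mul_sum, Finset.mul_sum]
        exact Finset.sum_congr rfl fun b _ => by ring
    _ ≤ 3 ^ d * ∑ b ∈ U, (cn (N b) {w | w + b ∈ D} : ℝ) := by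
        refine mul_le_mul_of_nonneg_left (Finset.sum_le_sum fun b hb => ?_) (by positivity)
        exact (hN b (hUt b hb)).2.le
    _ ≤ 3 ^ d * (cn (L + R) D : ℝ) := by
        refine mul_le_mul_of_nonneg_left ?_ (by positivity)
        exact_mod_cast h5

section

variable {μ : Measure ℝ} [IsProbabilityMeasure μ]

lemma cn_eq (n : ℕ) (D : Set ((Fin d → ℤ) × Fin d → ℝ)) (J : (Fin d → ℤ) × Fin d → ℝ) :
    (cn n {w | sh w J ∈ D} : ℝ) = ∑ w ∈ Bx d n, (sh w ⁻¹' D).indicator (fun _ => (1 : ℝ)) J := by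
  classical
  unfold cn
  rw [Finset.card_filter]
  push_cast
  refine Finset.sum_congr rfl fun w _ => ?_
  by_cases h : sh w J ∈ D
  · rw [if_pos (show w ∈ {w | sh w J ∈ D} from h), Set.indicator_of_mem (show J ∈ sh w ⁻¹' D from h)]
  · rw [if_neg (show w ∉ {w | sh w J ∈ D} from h),
      Set.indicator_of_notMem (show J ∉ sh w ⁻¹' D from h)]

lemma ind_integrable {B : Set ((Fin d → ℤ) × Fin d → ℝ)} (hB : MeasurableSet B) :
    Integrable (B.indicator fun _ => (1 : ℝ)) (PJ d μ) :=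
  (integrable_const 1).indicator hB

lemma cn_int (n : ℕ) {D : Set ((Fin d → ℤ) × Fin d → ℝ)} (hD : MeasurableSet D) :
    Integrable (fun J => (cn n {w | sh w J ∈ D} : ℝ)) (PJ d μ) ∧
    ∫ J, (cn n {w | sh w J ∈ D} : ℝ) ∂(PJ d μ) = (2 * (n : ℝ) + 1) ^ d * (PJ d μ).real D := by
  have h0 : (fun J => (cn n {w | sh w J ∈ D} : ℝ)) =
      fun J => ∑ w ∈ Bx d n, (sh w ⁻¹' D).indicator (fun _ => (1 : ℝ)) J := by
    funext J; exact cn_eq n D J
  rw [h0]
  have h1 : ∀ w ∈ Bx d n, Integrable ((sh w ⁻¹' D).indicator fun _ => (1 : ℝ)) (PJ d μ) :=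
    fun w _ => ind_integrable (sh_meas w hD)
  refine ⟨integrable_finsetSum _ h1, ?_⟩
  rw [integral_finsetSum _ h1]
  have h2 : ∀ w ∈ Bx d n, ∫ J, (sh w ⁻¹' D).indicator (fun _ => (1 : ℝ)) J ∂(PJ d μ) =
      (PJ d μ).real D := by
    intro w _
    rw [integral_indicator (sh_meas w hD), setIntegral_const, smul_eq_mul, mul_one, sh_pres μ w hD]
  rw [Finset.sum_congr rfl h2, Finset.sum_const, card_Bx, nsmul_eq_mul]
  push_cast
  ring

lemma cn_meas (n : ℕ) {D : Set ((Fin d → ℤ) × Fin d → ℝ)} (hD : MeasurableSet D) :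
    Measurable (fun J => (cn n {w | sh w J ∈ D} : ℝ)) := by
  have h0 : (fun J => (cn n {w | sh w J ∈ D} : ℝ)) =
      fun J => ∑ w ∈ Bx d n, (sh w ⁻¹' D).indicator (fun _ => (1 : ℝ)) J := by
    funext J; exact cn_eq n D J
  rw [h0]
  exact Finset.measurable_sum _ fun w _ => measurable_const.indicator (sh_meas w hD)

/-- the maximal inequality, bounded radii -/
theorem maximal_fin {D : Set ((Fin d → ℤ) × Fin d → ℝ)} (hD : MeasurableSet D) {c : ℝ}
    (hc : 0 < c) (R : ℕ) :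
    c * (PJ d μ).real {J | ∃ n ≤ R, c * (2 * (n : ℝ) + 1) ^ d < cn n {w | sh w J ∈ D}} ≤
      3 ^ d * (PJ d μ).real D := by
  set S : Set ((Fin d → ℤ) × Fin d → ℝ) :=
    {J | ∃ n ≤ R, c * (2 * (n : ℝ) + 1) ^ d < cn n {w | sh w J ∈ D}} with hS
  have hSm : MeasurableSet S := by
    have : S = ⋃ n ∈ Set.Iic R, {J | c * (2 * (n : ℝ) + 1) ^ d < (cn n {w | sh w J ∈ D} : ℝ)} := by
      ext J
      simp [hS]
    rw [this]
    exact MeasurableSet.biUnion (Set.to_countable _) fun n _ =>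
      measurableSet_lt measurable_const (cn_meas n hD)
  have hL : ∀ L : ℕ, c * ((2 * (L : ℝ) + 1) ^ d * (PJ d μ).real S) ≤
      3 ^ d * ((2 * ((L + R : ℕ) : ℝ) + 1) ^ d * (PJ d μ).real D) := by
    intro L
    rw [← (cn_int (μ := μ) L hSm).2, ← (cn_int (μ := μ) (L + R) hD).2, ← integral_const_mul,
      ← integral_const_mul]
    refine integral_mono ((cn_int L hSm).1.const_mul c) ((cn_int (L + R) hD).1.const_mul _) ?_
    intro J
    have h1 := covering {w | sh w J ∈ D} hc R L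
    have h2 : {v : Fin d → ℤ | ∃ n ≤ R, c * (2 * (n : ℝ) + 1) ^ d <
        cn n {w | w + v ∈ {w | sh w J ∈ D}}} = {w | sh w J ∈ S} := by
      ext v
      simp only [hS, Set.mem_ofPred_eq, sh_sh]
    rw [h2] at h1
    exact h1
  have hlim : Tendsto (fun L : ℕ => 3 ^ d * (((2 * ((L + R : ℕ) : ℝ) + 1) / (2 * (L : ℝ) + 1)) ^ d *
      (PJ d μ).real D)) atTop (𝓝 (3 ^ d * (1 ^ d * (PJ d μ).real D))) := by
    refine Tendsto.const_mul _ (Tendsto.mul_const _ (Tendsto.pow ?_ d))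
    have h1 : Tendsto (fun L : ℕ => 1 + 2 * (R : ℝ) / (2 * (L : ℝ) + 1)) atTop (𝓝 (1 + 0)) := by
      refine Tendsto.const_add _ (Tendsto.div_atTop tendsto_const_nhds ?_)
      exact tendsto_atTop_add_const_right _ _
        (Tendsto.const_mul_atTop (by norm_num) tendsto_natCast_atTop_atTop)
    rw [add_zero] at h1
    refine h1.congr fun L => ?_
    have : (2 * (L : ℝ) + 1) ≠ 0 := by positivity
    field_simp
    push_cast
    ring
  rw [one_pow, one_mul] at hlim
  refine ge_of_tendsto' hlim fun L => ?_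
  have h1 := hL L
  have h2 : (0 : ℝ) < (2 * (L : ℝ) + 1) ^ d := by positivity
  rw [div_pow]
  have h3 : 3 ^ d * ((2 * ((L + R : ℕ) : ℝ) + 1) ^ d / (2 * (L : ℝ) + 1) ^ d * (PJ d μ).real D) =
      3 ^ d * ((2 * ((L + R : ℕ) : ℝ) + 1) ^ d * (PJ d μ).real D) / (2 * (L : ℝ) + 1) ^ d := by
    field_simp
  rw [h3, le_div_iff₀ h2]
  linarith

/-- the maximal inequality -/
theorem maximal {D : Set ((Fin d → ℤ) × Fin d → ℝ)} (hD : MeasurableSet D) {c : ℝ}
    (hc : 0 < c) :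
    c * (PJ d μ).real {J | ∃ n : ℕ, c * (2 * (n : ℝ) + 1) ^ d < cn n {w | sh w J ∈ D}} ≤
      3 ^ d * (PJ d μ).real D := by
  set S : ℕ → Set ((Fin d → ℤ) × Fin d → ℝ) := fun R =>
    {J | ∃ n ≤ R, c * (2 * (n : ℝ) + 1) ^ d < cn n {w | sh w J ∈ D}} with hS
  have hmono : Monotone S := by
    rintro R R' h J ⟨n, h1, h2⟩
    exact ⟨n, h1.trans h, h2⟩
  have hU : {J | ∃ n : ℕ, c * (2 * (n : ℝ) + 1) ^ d < cn n {w | sh w J ∈ D}} = ⋃ R, S R := by
    ext J
    simp only [hS, Set.mem_ofPred_eq, Set.mem_iUnion]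
    exact ⟨fun ⟨n, h⟩ => ⟨n, n, le_rfl, h⟩, fun ⟨_, n, _, h⟩ => ⟨n, h⟩⟩
  have h1 := tendsto_measure_iUnion_atTop (μ := PJ d μ) hmono
  rw [← hU] at h1
  have h2 : Tendsto (fun R => (PJ d μ).real (S R)) atTop
      (𝓝 ((PJ d μ).real {J | ∃ n : ℕ, c * (2 * (n : ℝ) + 1) ^ d < cn n {w | sh w J ∈ D}})) :=
    (ENNReal.tendsto_toReal (measure_ne_top _ _)).comp h1
  exact le_of_tendsto' (h2.const_mul c) fun R => maximal_fin hD hc R

end

end Pool.Agent.L5helper98.EA
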