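import Pool.Agent.L5helper98.EA.Spr
import Pool.Agent.L5helper98.EA.Lln
import Pool.Agent.L5helper98.EA.Cnt

/-!
# Good sites
-/

set_option autoImplicit false

namespace Pool.Agent.L5helper98.EA

open MeasureTheory Filter Topology

variable {d : ℕ}

lemma tg_te (v : Fin d → ℤ) (e : (Fin d → ℤ) × Fin d) : tg (te v e) = tg e + v := by
  unfold tg te
  simp only [Equiv.coe_fn_mk]
  abel

lemma te_fst (v : Fin d → ℤ) (e : (Fin d → ℤ) × Fin d) : (te v e).1 = e.1 + v := rfl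

lemma cut_shift (v : Fin d → ℤ) (A : Finset (Fin d → ℤ)) (e : (Fin d → ℤ) × Fin d) :
    e ∈ cut (A.image fun w => w - v) ↔ te v e ∈ cut A := by
  classical
  have h : ∀ w : Fin d → ℤ, w ∈ A.image (fun w => w - v) ↔ w + v ∈ A := by
    intro w
    rw [Finset.mem_image]
    constructor
    · rintro ⟨a, ha, rfl⟩
      simpa using ha
    · intro hw
      exact ⟨w + v, hw, by simp⟩
  unfold cut
  simp only [Set.mem_ofPred_eq, h, te_fst, tg_te]

lemma Frs_shift (J : (Fin d → ℤ) × Fin d → ℝ) (v : Fin d → ℤ) {e : (Fin d → ℤ) × Fin d}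
    (he : te v e ∈ Frs (ab J)) : e ∈ Frs (ab (sh v J)) := by
  classical
  obtain ⟨A, h1, h2⟩ := he
  refine ⟨A.image fun w => w - v, (cut_shift v A e).2 h1, fun f hf hfe => ?_⟩
  exact h2 (te v f) ((cut_shift v A f).1 hf) fun h => hfe ((te v).injective h)

lemma Reach_shift (J : (Fin d → ℤ) × Fin d → ℝ) (v : Fin d → ℤ) {x y : Fin d → ℤ}
    (h : Reach (Frs (ab J)) x y) : Reach (Frs (ab (sh v J))) (x - v) (y - v) := by
  unfold Reach at h
  induction h with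
  | refl => exact Relation.ReflTransGen.refl
  | @tail b c _ h2 ih =>
    refine Relation.ReflTransGen.tail ih ?_
    obtain ⟨e, he, h3⟩ := h2
    have e1 : te v ((te v).symm e) = e := (te v).apply_symm_apply e
    refine ⟨(te v).symm e, Frs_shift J v (by rw [e1]; exact he), ?_⟩
    have e2 : ((te v).symm e).1 = e.1 - v := rfl
    have e3 : tg ((te v).symm e) = tg e - v := by
      have := tg_te v ((te v).symm e)
      rw [e1] at this
      rw [this]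
      simp
    rw [e2, e3]
    rcases h3 with ⟨h4, h5⟩ | ⟨h4, h5⟩
    · exact Or.inl ⟨by rw [h4], by rw [h5]⟩
    · exact Or.inr ⟨by rw [h4], by rw [h5]⟩

theorem gsc_sh {n M : ℕ} (J : (Fin d → ℤ) × Fin d → ℝ) (σ : (Fin d → ℤ) → ℝ) (h : GSC n J σ)
    (v : Fin d → ℤ) (hv : ∀ i, |v i| + M ≤ n) : GSC M (sh v J) (fun w => σ (w + v)) := by
  classical
  refine ⟨fun w => h.1 _, fun A hAM hA => ?_⟩
  have hAn : (A.image fun w => w + v) ⊆ Bx d n := by
    intro x hx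
    obtain ⟨w, hw, rfl⟩ := Finset.mem_image.1 hx
    rw [mem_Bx]
    intro i
    have h1 := mem_Bx.1 (hAM hw) i
    have h2 := hv i
    have h3 : |(w + v) i| ≤ |w i| + |v i| := abs_add_le _ _
    omega
  have h2 := h.2 (A.image fun w => w + v) hAn (hA.image _)
  refine lt_of_lt_of_le h2 (le_of_eq ?_)
  have hcut : ∀ e, te v e ∈ cut (A.image fun w => w + v) ↔ e ∈ cut A := by
    intro e
    rw [← cut_shift v (A.image fun w => w + v) e, Finset.image_image]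
    have : ((fun w => w - v) ∘ fun w => w + v) = (id : (Fin d → ℤ) → (Fin d → ℤ)) := by
      funext w
      simp
    rw [this, Finset.image_id]
  symm
  refine (finsum_mem_eq_of_bijOn (te v) ⟨?_, (te v).injective.injOn, ?_⟩ ?_)
  · intro e he
    exact (hcut e).2 he
  · intro e he
    have e1 : te v ((te v).symm e) = e := (te v).apply_symm_apply e
    refine ⟨(te v).symm e, ?_, e1⟩
    rw [← hcut, e1]
    exact he
  · intro e _
    rw [te_fst, tg_te]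
    rfl

/-- the unit vectors -/
def un (i : Fin d) : Fin d → ℤ := Pi.single i 1

lemma tg_eq (e : (Fin d → ℤ) × Fin d) : tg e = e.1 + un e.2 := rfl

/-- the local events -/
def EvR (i : Fin d) (N : ℕ) : Set ((Fin d → ℤ) × Fin d → ℝ) :=
  {a | Reach (Top a N) 0 (un i)}

def EvT (i : Fin d) (N : ℕ) : Set ((Fin d → ℤ) × Fin d → ℝ) :=
  {a | ((0 : Fin d → ℤ), i) ∈ Top a N}

/-- the bad event -/
def Bad (K : ℝ) (M : ℕ) : Set ((Fin d → ℤ) × Fin d → ℝ) :=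
  (⋃ i : Fin d, ((⋃ N, ab ⁻¹' EvR i N) \ (ab ⁻¹' EvR i M) ∪
    (⋃ N, ab ⁻¹' EvT i N) \ (ab ⁻¹' EvT i M))) ∪ {J | ¬ Sep J K M}

theorem good_reach {J : (Fin d → ℤ) × Fin d → ℝ} {K : ℝ} {M : ℕ}
    (hcard : ((BB d (M + 1)).card : ℝ) ≤ K) {e : (Fin d → ℤ) × Fin d}
    (hg : sh e.1 J ∉ Bad K M) (hr : Reach (Frs (ab J)) e.1 (tg e)) {σ τ : (Fin d → ℤ) → ℝ}
    {n : ℕ} (hn : ∀ i, |e.1 i| + M ≤ n) (hσ : GSC n J σ) (hτ : GSC n J τ) : σ e.1 * σ (tg e) = τ e.1 * τ (tg e) := by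
  have hS : Sep (sh e.1 J) K M := by
    by_contra hc
    exact hg (Or.inr hc)
  have h1 : Reach (Frs (ab (sh e.1 J))) 0 (un e.2) := by
    have := Reach_shift J e.1 hr
    rwa [sub_self, tg_eq, add_sub_cancel_left] at this
  obtain ⟨N, hN⟩ := (Reach_Frs _ _ _).1 h1
  have h2 : Reach (Top (ab (sh e.1 J)) M) 0 (un e.2) := by
    by_contra hc
    refine hg (Or.inl (Set.mem_iUnion.2 ⟨e.2, Or.inl ⟨Set.mem_iUnion.2 ⟨N, hN⟩, hc⟩⟩))
  have h3 := sat_reach hcard hS (gsc_sh J σ hσ e.1 hn) (gsc_sh J τ hτ e.1 hn) h2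
  rw [zero_add, tg_eq, add_comm e.1] at *
  exact h3

theorem good_top {J : (Fin d → ℤ) × Fin d → ℝ} {K : ℝ} {M : ℕ}
    (hcard : ((BB d (M + 1)).card : ℝ) ≤ K) {e : (Fin d → ℤ) × Fin d}
    (hg : sh e.1 J ∉ Bad K M) (hr : e ∈ Frs (ab J)) {σ : (Fin d → ℤ) → ℝ}
    {n : ℕ} (hn : ∀ i, |e.1 i| + M ≤ n) (hσ : GSC n J σ) : 0 < J e * (σ e.1 * σ (tg e)) := by
  have hS : Sep (sh e.1 J) K M := by
    by_contra hc
    exact hg (Or.inr hc)
  have e0 : te e.1 ((0 : Fin d → ℤ), e.2) = e := by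
    refine Prod.ext ?_ rfl
    rw [te_fst]
    simp
  have h1 : ((0 : Fin d → ℤ), e.2) ∈ Frs (ab (sh e.1 J)) := by
    refine Frs_shift J e.1 ?_
    rw [e0]
    exact hr
  obtain ⟨N, hN⟩ := (Frs_iff _ _).1 h1
  have h2 : ((0 : Fin d → ℤ), e.2) ∈ Top (ab (sh e.1 J)) M := by
    by_contra hc
    refine hg (Or.inl (Set.mem_iUnion.2 ⟨e.2, Or.inr ⟨Set.mem_iUnion.2 ⟨N, hN⟩, hc⟩⟩))
  obtain ⟨h3, h4⟩ := sat_edge hcard hS (gsc_sh J σ hσ e.1 hn) h2
  rw [← h3] at h4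
  have h5 : sh e.1 J ((0 : Fin d → ℤ), e.2) = J e := by
    rw [sh_apply, e0]
  have h6 : tg ((0 : Fin d → ℤ), e.2) + e.1 = tg e := by
    rw [← tg_te, e0]
  rw [h5, h6] at h4
  simpa using h4

/-! ### measurability and locality of the events -/

lemma EvR_meas (i : Fin d) (N : ℕ) : MeasurableSet (EvR i N) := Reach_meas _ _ _

lemma EvT_meas (i : Fin d) (N : ℕ) : MeasurableSet (EvT i N) := Top_meas _ _

lemma EvR_mono (i : Fin d) : Monotone (EvR i) := fun _ _ h a ha => Reach.mono (Top_mono a h) ha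

lemma EvT_mono (i : Fin d) : Monotone (EvT i) := fun _ _ h a ha => Top_mono a h ha

lemma Top_local {a b : (Fin d → ℤ) × Fin d → ℝ} {N : ℕ} (h : ∀ e ∈ BB d (N + 1), a e = b e) :
    Top a N ⊆ Top b N := by
  rintro e ⟨A, h1, h2, h3⟩
  refine ⟨A, h1, h2, fun f hf hfe => ?_⟩
  have g1 := cut_sub h1 hf
  have g2 := cut_sub h1 h2
  rw [Finset.mem_coe] at g1 g2
  rw [← h f g1, ← h e g2]
  exact h3 f hf hfe

lemma EvR_local (i : Fin d) (N : ℕ) : Local (N + 1) (ab ⁻¹' EvR i N) := by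
  intro J J' hJ h
  refine Reach.mono (Top_local fun e he => ?_) h
  show |J e| = |J' e|
  rw [hJ e he]

lemma EvT_local (i : Fin d) (N : ℕ) : Local (N + 1) (ab ⁻¹' EvT i N) := by
  intro J J' hJ h
  refine Top_local (fun e he => ?_) h
  show |J e| = |J' e|
  rw [hJ e he]

lemma Sep_local (K : ℝ) (M : ℕ) : Local (d := d) (M + 1) {J | ¬ Sep J K M} := by
  intro J J' hJ h hS
  refine h fun e he f hf hef => ?_
  have := hS e he f hf hef
  rw [hJ e he, hJ f hf]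
  exact this

/-- the probabilities of the order events are small, uniformly in the law -/
theorem uniform_small (E : ℕ → Set ((Fin d → ℤ) × Fin d → ℝ)) (hE : ∀ N, MeasurableSet (E N))
    (hmono : Monotone E) (hord : ∀ N, ∀ a b : (Fin d → ℤ) × Fin d → ℝ,
      (∀ e f, a e < a f ↔ b e < b f) → a ∈ E N → b ∈ E N) {ε : ℝ} (hε : 0 < ε) :
    ∃ M₀ : ℕ, ∀ M, M₀ ≤ M → ∀ (μ : Measure ℝ) [IsProbabilityMeasure μ], (∀ x, μ {x} = 0) →
      (PJ d μ).real ((⋃ N, ab ⁻¹' E N) \ (ab ⁻¹' E M)) ≤ ε := by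
  have h5 := tendsto_measure_iUnion_atTop (μ := PJ d U1) hmono
  have h6 : Tendsto (fun N => (PJ d U1).real (E N)) atTop (𝓝 ((PJ d U1).real (⋃ N, E N))) :=
    (ENNReal.tendsto_toReal (measure_ne_top _ _)).comp h5
  have h7 : ∀ N, (PJ d U1).real ((⋃ N, E N) \ E N) =
      (PJ d U1).real (⋃ N, E N) - (PJ d U1).real (E N) := fun N =>
    measureReal_sdiff (Set.subset_iUnion E N) (hE N)
  have h4 : Tendsto (fun N => (PJ d U1).real ((⋃ N, E N) \ E N)) atTop (𝓝 0) := by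
    simp only [h7]
    have h8 := (tendsto_const_nhds (x := (PJ d U1).real (⋃ N, E N))).sub h6
    rwa [sub_self] at h8
  obtain ⟨M₀, hM₀⟩ := (h4.eventually (gt_mem_nhds hε)).exists_forall_of_atTop
  refine ⟨M₀, fun M hM μ _ hat => ?_⟩
  have e1 : (⋃ N, ab ⁻¹' E N) \ (ab ⁻¹' E M) = ab ⁻¹' ((⋃ N, E N) \ E M) := by
    rw [Set.preimage_sdiff, Set.preimage_iUnion]
  rw [e1, order_law hat ((MeasurableSet.iUnion hE).diff (hE M))]
  · exact (hM₀ M hM).le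
  · rintro a b h ⟨ha1, ha2⟩
    obtain ⟨N, hN⟩ := Set.mem_iUnion.1 ha1
    exact ⟨Set.mem_iUnion.2 ⟨N, hord N a b h hN⟩,
      fun hb => ha2 (hord M b a (fun e f => (h e f).symm) hb)⟩

lemma EvR_ord (i : Fin d) (N : ℕ) (a b : (Fin d → ℤ) × Fin d → ℝ)
    (h : ∀ e f, a e < a f ↔ b e < b f) (ha : a ∈ EvR i N) : b ∈ EvR i N := by
  unfold EvR at ha ⊢
  rw [Set.mem_ofPred_eq] at ha ⊢
  rwa [← Top_congr h N]

lemma EvT_ord (i : Fin d) (N : ℕ) (a b : (Fin d → ℤ) × Fin d → ℝ)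
    (h : ∀ e f, a e < a f ↔ b e < b f) (ha : a ∈ EvT i N) : b ∈ EvT i N := by
  unfold EvT at ha ⊢
  rw [Set.mem_ofPred_eq] at ha ⊢
  rwa [← Top_congr h N]

end Pool.Agent.L5helper98.EA
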