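import Pool.Agent.L5helper98.EA.Law

/-!
# Separation of the couplings; powers of a law become widely spread

The part on powers is that of `Pool.Agent.Y430.NU.POW` (starting files), the part on separation that of
`Pool.Agent.Y430.NU.SEP`, for all dimensions.
-/

set_option autoImplicit false

namespace Pool.Agent.L5helper98.EA

open MeasureTheory Filter

variable {d : ℕ}

/-- signed powers -/
noncomputable def pw (t x : ℝ) : ℝ := Real.sign x * |x| ^ t


theorem pw_meas (t : ℝ) : Measurable (pw t) := by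
  unfold pw
  refine Measurable.mul ?_ ?_
  · unfold Real.sign
    exact Measurable.ite (measurableSet_lt measurable_id measurable_const) measurable_const
      (Measurable.ite (measurableSet_lt measurable_const measurable_id) measurable_const
        measurable_const)
  · exact (measurable_id.abs).pow_const t

theorem pw_abs {t : ℝ} (ht : 0 < t) (x : ℝ) : |pw t x| = |x| ^ t := by
  unfold pw
  rw [abs_mul, abs_of_nonneg (Real.rpow_nonneg (abs_nonneg x) t)]
  rcases lt_trichotomy x 0 with h | h | h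
  · rw [Real.sign_of_neg h]; simp
  · rw [h, abs_zero, Real.zero_rpow ht.ne']; simp
  · rw [Real.sign_of_pos h]; simp

theorem pw_inj {t : ℝ} (ht : 0 < t) : Function.Injective (pw t) := by
  intro x y h
  have h1 : |x| ^ t = |y| ^ t := by rw [← pw_abs ht, ← pw_abs ht, h]
  have h2 : |x| = |y| := (Real.rpow_left_inj (abs_nonneg _) (abs_nonneg _) ht.ne').1 h1
  rcases eq_or_ne x 0 with hx | hx
  · rw [hx, abs_zero] at h2
    rw [hx, (abs_eq_zero.1 h2.symm)]
  have hxp : 0 < |x| ^ t := Real.rpow_pos_of_pos (abs_pos.2 hx) t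
  unfold pw at h
  rw [← h1] at h
  have h3 : Real.sign x = Real.sign y := mul_right_cancel₀ hxp.ne' h
  have hy : y ≠ 0 := fun h0 => hx (abs_eq_zero.1 (by rw [h2, h0, abs_zero]))
  rcases lt_or_gt_of_ne hx with h4 | h4 <;> rcases lt_or_gt_of_ne hy with h5 | h5
  · rwa [abs_of_neg h4, abs_of_neg h5, neg_inj] at h2
  · rw [Real.sign_of_neg h4, Real.sign_of_pos h5] at h3; norm_num at h3
  · rw [Real.sign_of_pos h4, Real.sign_of_neg h5] at h3; norm_num at h3
  · rwa [abs_of_pos h4, abs_of_pos h5] at h2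

/-- the set for the law itself -/
def AA (K : ℝ) : Set (ℝ × ℝ) := {p : ℝ × ℝ | |p.1| ≤ K * |p.2| ∧ |p.2| ≤ K * |p.1|}

theorem AA_meas (K : ℝ) : MeasurableSet (AA K) := by
  unfold AA
  refine MeasurableSet.inter ?_ ?_
  · exact measurableSet_le (f := fun p : ℝ × ℝ => |p.1|) (g := fun p : ℝ × ℝ => K * |p.2|)
      (by fun_prop) (by fun_prop)
  · exact measurableSet_le (f := fun p : ℝ × ℝ => |p.2|) (g := fun p : ℝ × ℝ => K * |p.1|)
      (by fun_prop) (by fun_prop)

theorem AA_mono {K L : ℝ} (h : K ≤ L) : AA K ⊆ AA L := by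
  rintro p ⟨h1, h2⟩
  exact ⟨h1.trans (mul_le_mul_of_nonneg_right h (abs_nonneg _)),
    h2.trans (mul_le_mul_of_nonneg_right h (abs_nonneg _))⟩

theorem AA_pw {t K : ℝ} (ht : 0 < t) (hK : 0 < K) (p : ℝ × ℝ) :
    (pw t p.1, pw t p.2) ∈ AA K ↔ p ∈ AA (K ^ t⁻¹) := by
  have key : ∀ a b : ℝ, |a| ^ t ≤ K * |b| ^ t ↔ |a| ≤ K ^ t⁻¹ * |b| := by
    intro a b
    rw [← Real.rpow_le_rpow_iff (z := t) (abs_nonneg a) (by positivity) ht,
      Real.mul_rpow (by positivity) (abs_nonneg _), ← Real.rpow_mul hK.le,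
      inv_mul_cancel₀ ht.ne', Real.rpow_one]
  unfold AA
  simp only [Set.mem_ofPred_eq, pw_abs ht, key]

theorem diag_zero (μ : Measure ℝ) [IsProbabilityMeasure μ] (h0 : ∀ x, μ {x} = 0) :
    (μ.prod μ) (AA 1) = 0 := by
  rw [Measure.measure_prod_null (AA_meas 1)]
  refine Filter.Eventually.of_forall fun x => ?_
  have : Prod.mk x ⁻¹' AA 1 ⊆ {x} ∪ {-x} := by
    rintro y ⟨h1, h2⟩
    simp only [one_mul] at h1 h2
    have h3 : |x| = |y| := le_antisymm h1 h2
    rcases abs_eq_abs.1 h3 with h | h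
    · left; exact h.symm
    · right; rw [Set.mem_singleton_iff, h, neg_neg]
  exact measure_mono_null this (measure_union_null (h0 _) (h0 _))

theorem pow_spread (μ : Measure ℝ) [IsProbabilityMeasure μ] (h0 : ∀ x, μ {x} = 0)
    (K δ : ℝ) (hK : 0 < K) (hδ : 0 < δ) : ∃ t₀ : ℝ, 0 < t₀ ∧ ∀ t : ℝ, t₀ ≤ t →
    IsProbabilityMeasure (μ.map (pw t)) ∧ (∀ x, (μ.map (pw t)) {x} = 0) ∧
    ((μ.map (pw t)).prod (μ.map (pw t))).real
      {p : ℝ × ℝ | |p.1| ≤ K * |p.2| ∧ |p.2| ≤ K * |p.1|} ≤ δ := by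
  have hinter : ⋂ n : ℕ, AA ((max K 1) ^ ((n : ℝ) + 1)⁻¹) ⊆ AA 1 := by
    intro p hp
    rw [Set.mem_iInter] at hp
    have hlim : Tendsto (fun n : ℕ => (max K 1) ^ ((n : ℝ) + 1)⁻¹) atTop (nhds 1) := by
      have h1 : Tendsto (fun n : ℕ => ((n : ℝ) + 1)⁻¹) atTop (nhds 0) :=
        (tendsto_natCast_atTop_atTop.atTop_add tendsto_const_nhds).inv_tendsto_atTop
      have h2 := (Real.continuousAt_const_rpow (a := max K 1) (b := 0) (by positivity)).tendsto.comp h1
      simpa [Function.comp_def] using h2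
    exact ⟨ge_of_tendsto (hlim.mul_const _) (Filter.Eventually.of_forall fun n => (hp n).1),
      ge_of_tendsto (hlim.mul_const _) (Filter.Eventually.of_forall fun n => (hp n).2)⟩
  have hanti : Antitone fun n : ℕ => AA ((max K 1) ^ ((n : ℝ) + 1)⁻¹) := by
    intro m n hmn
    refine AA_mono (Real.rpow_le_rpow_of_exponent_le (le_max_right _ _) ?_)
    have : (m : ℝ) ≤ n := by exact_mod_cast hmn
    gcongr
  have hT := tendsto_measure_iInter_atTop (μ := μ.prod μ) (s := fun n : ℕ => AA ((max K 1) ^ ((n : ℝ) + 1)⁻¹))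
    (fun n => (AA_meas _).nullMeasurableSet) hanti ⟨0, measure_ne_top _ _⟩
  rw [measure_mono_null hinter (diag_zero μ h0)] at hT
  obtain ⟨n, hn⟩ := ((ENNReal.tendsto_nhds_zero.1 hT) (ENNReal.ofReal δ)
    (ENNReal.ofReal_pos.2 hδ)).exists
  refine ⟨(n : ℝ) + 1, by positivity, fun t ht => ?_⟩
  have ht0 : 0 < t := lt_of_lt_of_le (by positivity) ht
  have hm := pw_meas t
  have hprob : IsProbabilityMeasure (μ.map (pw t)) := Measure.isProbabilityMeasure_map hm.aemeasurable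
  refine ⟨hprob, fun x => ?_, ?_⟩
  · rw [Measure.map_apply hm (measurableSet_singleton x)]
    by_cases hx : ∃ y, pw t y = x
    · obtain ⟨y, rfl⟩ := hx
      refine measure_mono_null ?_ (h0 y)
      intro z hz
      exact pw_inj ht0 hz
    · have : pw t ⁻¹' {x} = ∅ := by
        ext z
        simp only [Set.mem_preimage, Set.mem_singleton_iff, Set.mem_empty_iff_false, iff_false]
        exact fun h => hx ⟨z, h⟩
      rw [this, measure_empty]
  · have e1 : (μ.map (pw t)).prod (μ.map (pw t)) = (μ.prod μ).map (Prod.map (pw t) (pw t)) :=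
      Measure.map_prod_map μ μ hm hm
    rw [e1, measureReal_def]
    change (((μ.prod μ).map (Prod.map (pw t) (pw t))) (AA K)).toReal ≤ δ
    rw [Measure.map_apply (hm.prodMap hm) (AA_meas K)]
    refine ENNReal.toReal_le_of_le_ofReal hδ.le (le_trans (measure_mono ?_) hn)
    intro p hp
    have h1 : p ∈ AA (K ^ t⁻¹) := (AA_pw ht0 hK p).1 hp
    refine AA_mono ?_ h1
    refine (Real.rpow_le_rpow hK.le (le_max_left K 1) (by positivity)).trans
      (Real.rpow_le_rpow_of_exponent_le (le_max_right _ _) ?_)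
    gcongr


/-! ### separation -/

/-- the law of two couplings -/
theorem map_pair (μ : Measure ℝ) [IsProbabilityMeasure μ] {e f : (Fin d → ℤ) × Fin d}
    (h : e ≠ f) : (PJ d μ).map (fun J => (J e, J f)) = μ.prod μ := by
  have h1 := ProbabilityTheory.iIndepFun_infinitePi (P := fun _ : (Fin d → ℤ) × Fin d => μ)
    (X := fun _ : (Fin d → ℤ) × Fin d => (id : ℝ → ℝ)) (fun _ => measurable_id)
  have h2 := h1.indepFun h
  rw [ProbabilityTheory.indepFun_iff_map_prod_eq_prod_map_map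
    (by exact (measurable_pi_apply e).aemeasurable)
    (by exact (measurable_pi_apply f).aemeasurable)] at h2
  have h3 : ∀ g : (Fin d → ℤ) × Fin d,
      (Measure.infinitePi fun _ : (Fin d → ℤ) × Fin d => μ).map (fun J => id (J g)) = μ :=
    fun g => Measure.infinitePi_map_eval (fun _ : (Fin d → ℤ) × Fin d => μ) g
  rw [h3, h3] at h2
  exact h2

theorem sep_meas (K : ℝ) (M : ℕ) :
    MeasurableSet {J : (Fin d → ℤ) × Fin d → ℝ | Sep J K M} := by
  have : {J : (Fin d → ℤ) × Fin d → ℝ | Sep J K M} =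
      ⋂ e ∈ BB d (M + 1), ⋂ f ∈ BB d (M + 1), ⋂ (_ : e ≠ f),
      {J : (Fin d → ℤ) × Fin d → ℝ | K * |J e| < |J f| ∨ K * |J f| < |J e|} := by
    ext J
    simp only [Sep, Set.mem_iInter, Set.mem_ofPred_eq]
  rw [this]
  refine Finset.measurableSet_biInter _ fun e _ => Finset.measurableSet_biInter _ fun f _ =>
    MeasurableSet.iInter fun _ => ?_
  refine MeasurableSet.union ?_ ?_
  · exact measurableSet_lt (f := fun J : (Fin d → ℤ) × Fin d → ℝ => K * |J e|)
      (g := fun J : (Fin d → ℤ) × Fin d → ℝ => |J f|) (by fun_prop) (by fun_prop)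
  · exact measurableSet_lt (f := fun J : (Fin d → ℤ) × Fin d → ℝ => K * |J f|)
      (g := fun J : (Fin d → ℤ) × Fin d → ℝ => |J e|) (by fun_prop) (by fun_prop)

theorem sep_prob (μ : Measure ℝ) [IsProbabilityMeasure μ] (K δ : ℝ)
    (hδ : (μ.prod μ).real {p : ℝ × ℝ | |p.1| ≤ K * |p.2| ∧ |p.2| ≤ K * |p.1|} ≤ δ) (M : ℕ) :
    (PJ d μ).real {J : (Fin d → ℤ) × Fin d → ℝ | ¬ Sep J K M} ≤
      ((BB d (M + 1)).card : ℝ) ^ 2 * δ := by
  have hδ0 : 0 ≤ δ := measureReal_nonneg.trans hδ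
  have hA : MeasurableSet {p : ℝ × ℝ | |p.1| ≤ K * |p.2| ∧ |p.2| ≤ K * |p.1|} := AA_meas K
  have hpair : ∀ e f : (Fin d → ℤ) × Fin d, (PJ d μ).real
      {J : (Fin d → ℤ) × Fin d → ℝ | e ≠ f ∧
      (|J e| ≤ K * |J f| ∧ |J f| ≤ K * |J e|)} ≤ δ := by
    intro e f
    by_cases h : e = f
    · have : {J : (Fin d → ℤ) × Fin d → ℝ | e ≠ f ∧
          (|J e| ≤ K * |J f| ∧ |J f| ≤ K * |J e|)} = ∅ := by
        ext J
        simp [h]
      rw [this, measureReal_empty]
      exact hδ0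
    · have : {J : (Fin d → ℤ) × Fin d → ℝ | e ≠ f ∧ (|J e| ≤ K * |J f| ∧ |J f| ≤ K * |J e|)} =
          (fun J : (Fin d → ℤ) × Fin d → ℝ => (J e, J f)) ⁻¹'
            {p : ℝ × ℝ | |p.1| ≤ K * |p.2| ∧ |p.2| ≤ K * |p.1|} := by
        ext J
        exact ⟨fun h' => h'.2, fun h' => ⟨h, h'⟩⟩
      rw [this]
      refine le_trans (le_of_eq ?_) hδ
      rw [measureReal_def, measureReal_def, ← map_pair μ h,
        Measure.map_apply (by fun_prop) hA]
  have hsub : {J : (Fin d → ℤ) × Fin d → ℝ | ¬ Sep J K M} ⊆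
      ⋃ p ∈ BB d (M + 1) ×ˢ BB d (M + 1),
      {J : (Fin d → ℤ) × Fin d → ℝ | p.1 ≠ p.2 ∧
        (|J p.1| ≤ K * |J p.2| ∧ |J p.2| ≤ K * |J p.1|)} := by
    intro J hJ
    have hJ' : ¬ Sep J K M := hJ
    unfold Sep at hJ'
    simp only [not_forall, not_or, not_lt] at hJ'
    obtain ⟨e, he, f, hf, hne, h1, h2⟩ := hJ'
    refine Set.mem_iUnion₂.2 ⟨(e, f), Finset.mem_product.2 ⟨he, hf⟩, hne, h2, h1⟩
  refine (measureReal_mono hsub (measure_ne_top _ _)).trans
    ((measureReal_biUnion_finset_le _ _).trans ?_)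
  refine (Finset.sum_le_sum fun p _ => hpair p.1 p.2).trans (le_of_eq ?_)
  rw [Finset.sum_const, Finset.card_product, nsmul_eq_mul]
  push_cast
  ring

end Pool.Agent.L5helper98.EA
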